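import Pool.Agent.Lib.MP_42948a_nt.EK.Defs

/-!
# Balls in commutative groups grow polynomially (job A1)

Let `n0` be a natural number with `(2 n0 + 1)^M < (1 + κ)^n0` (exponential beats polynomial: e.g. `tendsto_pow_const_div_const_pow_of_one_lt`, or Bernoulli), `B = (2 n0 + 1)^M`.
For `Ξ` of size `≤ M` let `S n` be the set of all products `∏_{χ ∈ Ξ} χ^(a χ)`, `a χ ∈ [-n, n]` integers (a `Finset.image` of `Finset.pi Ξ (fun _ => Icc (-n) n)` or of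
`Fintype.piFinset` over the subtype). Then `1 ∈ S 0`, `#S n ≤ (2n+1)^#Ξ ≤ (2n+1)^M`, `S n ⊆ S (n+1)`, `χ • S n ⊆ S (n+1)` for `χ ∈ Ξ`.
If `#S (n+1) > (1+κ) #S n` for all `n < n0` then `#S n0 ≥ (1+κ)^n0 > (2 n0+1)^M ≥ #S n0`, a contradiction; so `#S(n+1) ≤ (1+κ) #S n` for some `n < n0`; `S = S n`,
`#S ≤ B`. For `χ ∈ Ξ`: `{ψ ∈ S : χ ψ ∈ S}` is in bijection (`ψ ↦ χ ψ`) with `χS ∩ S`, and `#(χS ∩ S) = #χS + #S - #(χS ∪ S) ≥ 2 #S - #S(n+1) ≥ (1-κ) #S`.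
Divide by `#S > 0` (definition of `bh`; `bh` uses the classical decidability: `classical`, `convert` is not needed if you prove the count with `open Classical`).
If `M = 0` then `S = {1}` works, no separate treatment is needed.
-/

namespace Pool.Agent.Lib.MP_42948a_nt.EK

open Finset

open Classical in
/-- the products with exponents in `[-n, n]` -/
private noncomputable def A1_S {X : Type} [CommGroup X] (Ξ : Finset X) (n : ℕ) : Finset X :=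
  (Fintype.piFinset (fun _ : Ξ => Icc (-(n : ℤ)) (n : ℤ))).image
    (fun a => ∏ χ : Ξ, (χ : X) ^ (a χ))

private theorem A1_mem {X : Type} [CommGroup X] (Ξ : Finset X) (n : ℕ) (x : X) :
    x ∈ A1_S Ξ n ↔ ∃ a : Ξ → ℤ, (∀ χ, -(n : ℤ) ≤ a χ ∧ a χ ≤ n) ∧
      ∏ χ : Ξ, (χ : X) ^ (a χ) = x := by
  classical
  unfold A1_S
  rw [mem_image]
  constructor
  · rintro ⟨a, ha, rfl⟩
    exact ⟨a, fun χ => mem_Icc.1 (Fintype.mem_piFinset.1 ha χ), rfl⟩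
  · rintro ⟨a, ha, rfl⟩
    exact ⟨a, Fintype.mem_piFinset.2 fun χ => mem_Icc.2 (ha χ), rfl⟩

private theorem A1_card {X : Type} [CommGroup X] (Ξ : Finset X) (n : ℕ) :
    (A1_S Ξ n).card ≤ (2 * n + 1) ^ Ξ.card := by
  classical
  unfold A1_S
  refine card_image_le.trans (le_of_eq ?_)
  rw [Fintype.card_piFinset, prod_const, Int.card_Icc, card_univ, Fintype.card_coe]
  congr 1
  omega

private theorem A1_one {X : Type} [CommGroup X] (Ξ : Finset X) (n : ℕ) : (1 : X) ∈ A1_S Ξ n := by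
  rw [A1_mem]
  have h : -(n : ℤ) ≤ 0 ∧ (0 : ℤ) ≤ n := ⟨by omega, by omega⟩
  refine ⟨fun _ => 0, fun _ => h, ?_⟩
  exact prod_eq_one fun χ _ => zpow_zero _

private theorem A1_mono {X : Type} [CommGroup X] (Ξ : Finset X) (n : ℕ) :
    A1_S Ξ n ⊆ A1_S Ξ (n + 1) := by
  intro x hx
  rw [A1_mem] at hx ⊢
  obtain ⟨a, ha, hx⟩ := hx
  refine ⟨a, fun χ => ?_, hx⟩
  have h := ha χ
  push_cast
  omega

private theorem A1_mul {X : Type} [CommGroup X] (Ξ : Finset X) (n : ℕ) (χ : X) (hχ : χ ∈ Ξ)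
    (x : X) (hx : x ∈ A1_S Ξ n) : χ * x ∈ A1_S Ξ (n + 1) := by
  classical
  rw [A1_mem] at hx ⊢
  obtain ⟨a, ha, rfl⟩ := hx
  refine ⟨fun ψ => a ψ + if ψ = ⟨χ, hχ⟩ then 1 else 0, fun ψ => ?_, ?_⟩
  · have h := ha ψ
    push_cast
    split_ifs <;> omega
  · have h1 : ∀ ψ : Ξ, (ψ : X) ^ (a ψ + if ψ = ⟨χ, hχ⟩ then 1 else 0) =
        (ψ : X) ^ (a ψ) * (ψ : X) ^ (if ψ = ⟨χ, hχ⟩ then (1 : ℤ) else 0) :=
      fun ψ => zpow_add _ _ _
    rw [prod_congr rfl fun ψ _ => h1 ψ, prod_mul_distrib, mul_comm]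
    congr 1
    rw [prod_eq_single (⟨χ, hχ⟩ : Ξ)]
    · rw [if_pos rfl, zpow_one]
    · intro ψ _ hψ
      rw [if_neg hψ, zpow_zero]
    · intro h
      exact absurd (mem_univ _) h

private theorem A1_n0 (M : ℕ) (κ : ℝ) (hκ : 0 < κ) :
    ∃ n0 : ℕ, ((2 * n0 + 1 : ℕ) : ℝ) ^ M < (1 + κ) ^ n0 := by
  have h1 := tendsto_pow_const_div_const_pow_of_one_lt M (show 1 < 1 + κ by linarith)
  have h3 : (0 : ℝ) < 1 / 3 ^ M := by positivity
  have h2 := (h1.eventually (gt_mem_nhds h3)).and (Filter.eventually_ge_atTop 1)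
  obtain ⟨n, hn, hn1⟩ := h2.exists
  refine ⟨n, ?_⟩
  have h4 : (0 : ℝ) < (1 + κ) ^ n := by positivity
  rw [div_lt_iff₀ h4] at hn
  have h5 : ((2 * n + 1 : ℕ) : ℝ) ≤ 3 * n := by
    have h6 : 2 * n + 1 ≤ 3 * n := by omega
    exact_mod_cast h6
  have h6 : ((2 * n + 1 : ℕ) : ℝ) ^ M ≤ (3 * n) ^ M := pow_le_pow_left₀ (by positivity) h5 M
  rw [mul_pow] at h6
  have h7 : (0 : ℝ) < 3 ^ M := by positivity
  have h8 : (3 : ℝ) ^ M * (n : ℝ) ^ M < 3 ^ M * (1 / 3 ^ M * (1 + κ) ^ n) :=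
    mul_lt_mul_of_pos_left hn h7
  have h9 : (3 : ℝ) ^ M * (1 / 3 ^ M * (1 + κ) ^ n) = (1 + κ) ^ n := by
    field_simp
  linarith

theorem ball (M : ℕ) (κ : ℝ) (hκ : 0 < κ) : ∃ B : ℕ, ∀ (X : Type) [CommGroup X] (Ξ : Finset X), Ξ.card ≤ M →
    ∃ S : Finset X, S.Nonempty ∧ S.card ≤ B ∧ ∀ χ ∈ Ξ, 1 - κ ≤ bh S χ := by
  classical
  obtain ⟨n0, hn0⟩ := A1_n0 M κ hκ
  refine ⟨(2 * n0 + 1) ^ M, fun X _ Ξ hΞ => ?_⟩
  have hcard : ∀ n, (A1_S Ξ n).card ≤ (2 * n + 1) ^ M := fun n =>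
    (A1_card Ξ n).trans (Nat.pow_le_pow_right (by omega) hΞ)
  have hex : ∃ n < n0, ((A1_S Ξ (n + 1)).card : ℝ) ≤ (1 + κ) * (A1_S Ξ n).card := by
    by_contra hcon
    push Not at hcon
    have h1 : ∀ n ≤ n0, (1 + κ) ^ n ≤ ((A1_S Ξ n).card : ℝ) := by
      intro n
      induction n with
      | zero =>
        intro _
        rw [pow_zero]
        have h2 : 0 < (A1_S Ξ 0).card := card_pos.2 ⟨1, A1_one Ξ 0⟩
        exact_mod_cast h2
      | succ n ih =>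
        intro hn
        have h2 := ih (by omega)
        have h3 := hcon n (by omega)
        have h4 : (1 + κ) ^ (n + 1) = (1 + κ) * (1 + κ) ^ n := by ring
        rw [h4]
        have h5 : (1 + κ) * (1 + κ) ^ n ≤ (1 + κ) * (A1_S Ξ n).card :=
          mul_le_mul_of_nonneg_left h2 (by linarith)
        linarith
    have h2 := h1 n0 le_rfl
    have h3 : ((A1_S Ξ n0).card : ℝ) ≤ ((2 * n0 + 1 : ℕ) : ℝ) ^ M := by
      exact_mod_cast hcard n0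
    linarith
  obtain ⟨n, hn, hle⟩ := hex
  refine ⟨A1_S Ξ n, ⟨1, A1_one Ξ n⟩, ?_, ?_⟩
  · refine (hcard n).trans (Nat.pow_le_pow_left ?_ M)
    omega
  · intro χ hχ
    have hpos : 0 < (A1_S Ξ n).card := card_pos.2 ⟨1, A1_one Ξ n⟩
    have hposr : (0 : ℝ) < (A1_S Ξ n).card := by exact_mod_cast hpos
    unfold bh
    rw [le_div_iff₀ hposr]
    have h1 : ((A1_S Ξ n).filter (fun ψ => χ * ψ ∈ A1_S Ξ n)).card +
        ((A1_S Ξ n).filter (fun ψ => ¬ χ * ψ ∈ A1_S Ξ n)).card = (A1_S Ξ n).card :=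
      card_filter_add_card_filter_not _
    have h2 : (((A1_S Ξ n).filter (fun ψ => ¬ χ * ψ ∈ A1_S Ξ n)).image (fun ψ => χ * ψ)).card =
        ((A1_S Ξ n).filter (fun ψ => ¬ χ * ψ ∈ A1_S Ξ n)).card :=
      card_image_of_injective _ (mul_right_injective χ)
    have h3 : Disjoint (((A1_S Ξ n).filter (fun ψ => ¬ χ * ψ ∈ A1_S Ξ n)).image
        (fun ψ => χ * ψ)) (A1_S Ξ n) := by
      rw [disjoint_left]
      intro x hx hx'
      obtain ⟨ψ, hψ, rfl⟩ := mem_image.1 hx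
      exact (mem_filter.1 hψ).2 hx'
    have h4 : ((A1_S Ξ n).filter (fun ψ => ¬ χ * ψ ∈ A1_S Ξ n)).image (fun ψ => χ * ψ) ∪
        A1_S Ξ n ⊆ A1_S Ξ (n + 1) := by
      apply union_subset
      · intro x hx
        obtain ⟨ψ, hψ, rfl⟩ := mem_image.1 hx
        exact A1_mul Ξ n χ hχ ψ (mem_filter.1 hψ).1
      · exact A1_mono Ξ n
    have h5 := card_le_card h4
    rw [card_union_of_disjoint h3, h2] at h5
    have h6 : (((A1_S Ξ n).filter (fun ψ => ¬ χ * ψ ∈ A1_S Ξ n)).card : ℝ) +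
        (A1_S Ξ n).card ≤ (A1_S Ξ (n + 1)).card := by exact_mod_cast h5
    have h7 : (((A1_S Ξ n).filter (fun ψ => χ * ψ ∈ A1_S Ξ n)).card : ℝ) +
        ((A1_S Ξ n).filter (fun ψ => ¬ χ * ψ ∈ A1_S Ξ n)).card = (A1_S Ξ n).card := by
      exact_mod_cast h1
    have h8 : (1 - κ) * ((A1_S Ξ n).card : ℝ) ≤
        (((A1_S Ξ n).filter (fun ψ => χ * ψ ∈ A1_S Ξ n)).card : ℝ) := by
      linarith
    exact h8

end Pool.Agent.Lib.MP_42948a_nt.EK
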