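import Pool.Agent.Lib.MP_42948a_nt.EK.TI0
import Pool.Agent.Lib.MP_42948a_nt.TH.M2

/-!
# `B3` holds
-/

namespace Pool.Agent.Lib.MP_42948a_nt.EK

open Finset

theorem b3 : B3 := by
  intro κ hκ
  obtain ⟨κ', h1, d0, h2⟩ := Pool.Agent.Lib.MP_42948a_nt.TH.bur3 κ hκ
  refine ⟨κ', h1, d0, fun d hd χ hχ N hN => ?_⟩
  refine h2 d hd χ hχ N ?_
  have h3 : (1 / 4 + (1 / 12 + κ) : ℝ) = 1 / 3 + κ := by ring
  rw [h3]
  exact hN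

end Pool.Agent.Lib.MP_42948a_nt.EK
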