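import Pool.Agent.Lib.MP_42948a_nt.EK.A4

/-!
# Class functions of finite sets of integers (job C2a)

`CF d R rw1 g = ∑_{n ∈ R, ucl d n = g} 1/n`. `sum_CF`: every `n ∈ R` is counted for exactly one `g` (`Finset.sum_fiberwise` or `sum_comm` and `Finset.sum_ite_eq`). `CF_mono`: subset of the filter, nonnegative terms.
`SF_CF`: `SF (CF d R rw1) χ = ∑_{n ∈ R} (1/n) conj (χ n)`: `ev χ (ucl d n) = χ (n : ZMod d)` for `n` coprime to `d` (`ucl_val`).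
`cv_CF`: `cv (CF d R rw1) h x = ∑_y (∑_{n ∈ R, ucl n = y} 1/n) h (y⁻¹ x) = ∑_{n ∈ R} (1/n) h ((ucl d n)⁻¹ x)` (exchange the sums).
`sm_CF`: definition of `sm` and `cv_CF`.
`prod_lower`: Let `R1`, `R2` be sets of numbers coprime to `d`, all products `m n` in `R`, and every `N` is a product `m n` (`m ∈ R1`, `n ∈ R2`) in at most `k` ways. Then
`∑_{m ∈ R1} (1/m) sm S (CF R2) ((ucl m)⁻¹ x) = ∑_{m ∈ R1, n ∈ R2} (1/(m n)) bt S ((ucl (m n))⁻¹ x)` (`ucl_mul`) `≤ k ∑_{N ∈ R} (1/N) bt S ((ucl N)⁻¹ x)` (group the pairs by `N = m n`; `bt ≥ 0`, `bt_nonneg` in `A2.lean`).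
-/

namespace Pool.Agent.Lib.MP_42948a_nt.EK

open Finset Pool.Agent.Lib.MP_42948a_nt.OA Pool.Agent.Lib.MP_42948a_nt.AC Pool.Agent.Lib.MP_42948a_nt.TQ
  Pool.Agent.Lib.MP_42948a_nt.PS

private theorem C2a_rw1 (n : ℕ) : 0 ≤ rw1 n := by
  unfold rw1
  positivity

private theorem C2a_mul (m n : ℕ) : rw1 (m * n) = rw1 m * rw1 n := by
  unfold rw1
  rw [Nat.cast_mul, one_div, one_div, one_div, mul_inv]

theorem CF_nonneg (d : ℕ) (R : Finset ℕ) (g : (ZMod d)ˣ) : 0 ≤ CF d R rw1 g := by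
  unfold CF
  exact sum_nonneg fun n _ => C2a_rw1 n

theorem CF_mono (d : ℕ) (R R' : Finset ℕ) (h : R ⊆ R') (g : (ZMod d)ˣ) : CF d R rw1 g ≤ CF d R' rw1 g := by
  unfold CF
  exact sum_le_sum_of_subset_of_nonneg (filter_subset_filter _ h) fun n _ _ => C2a_rw1 n

theorem sum_CF (d : ℕ) [NeZero d] (R : Finset ℕ) : ∑ g : (ZMod d)ˣ, CF d R rw1 g = ∑ n ∈ R, rw1 n := by
  unfold CF
  exact sum_fiberwise R (ucl d) rw1

theorem CF_exists (d : ℕ) (R : Finset ℕ) (g : (ZMod d)ˣ) (h : CF d R rw1 g ≠ 0) : ∃ n ∈ R, ucl d n = g := by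
  unfold CF at h
  obtain ⟨n, hn, -⟩ := exists_ne_zero_of_sum_ne_zero h
  exact ⟨n, (mem_filter.1 hn).1, (mem_filter.1 hn).2⟩

theorem SF_CF (d : ℕ) [NeZero d] (R : Finset ℕ) (hR : ∀ n ∈ R, n.Coprime d) (χ : DirichletCharacter ℂ d) :
    SF (CF d R rw1) χ = ∑ n ∈ R, ((rw1 n : ℝ) : ℂ) * (starRingEnd ℂ) (χ (n : ZMod d)) := by
  unfold SF CF
  rw [← sum_fiberwise R (ucl d) fun n => ((rw1 n : ℝ) : ℂ) * (starRingEnd ℂ) (χ (n : ZMod d))]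
  refine sum_congr rfl fun c _ => ?_
  rw [Complex.ofReal_sum, sum_mul]
  refine sum_congr rfl fun n hn => ?_
  obtain ⟨h1, h2⟩ := mem_filter.1 hn
  unfold ev
  rw [← h2, ucl_val (hR n h1)]

theorem cv_CF (d : ℕ) [NeZero d] (R : Finset ℕ) (h : (ZMod d)ˣ → ℝ) (x : (ZMod d)ˣ) :
    cv (CF d R rw1) h x = ∑ n ∈ R, rw1 n * h ((ucl d n)⁻¹ * x) := by
  unfold cv CF
  rw [← sum_fiberwise R (ucl d) fun n => rw1 n * h ((ucl d n)⁻¹ * x)]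
  refine sum_congr rfl fun c _ => ?_
  rw [sum_mul]
  refine sum_congr rfl fun n hn => ?_
  rw [(mem_filter.1 hn).2]

theorem sm_CF (d : ℕ) [NeZero d] (S : Finset (DirichletCharacter ℂ d)) (R : Finset ℕ) (x : (ZMod d)ˣ) :
    sm S (CF d R rw1) x = ∑ n ∈ R, rw1 n * bt S ((ucl d n)⁻¹ * x) := by
  unfold sm
  exact cv_CF d R (bt S) x

open Classical in
theorem prod_lower (d : ℕ) [NeZero d] (S : Finset (DirichletCharacter ℂ d)) (R1 R2 R : Finset ℕ) (k : ℕ)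
    (h1 : ∀ m ∈ R1, m.Coprime d) (h2 : ∀ n ∈ R2, n.Coprime d) (h3 : ∀ m ∈ R1, ∀ n ∈ R2, m * n ∈ R)
    (h4 : ∀ N ∈ R, ((R1 ×ˢ R2).filter (fun q : ℕ × ℕ => q.1 * q.2 = N)).card ≤ k) (x : (ZMod d)ˣ) :
    ∑ m ∈ R1, rw1 m * sm S (CF d R2 rw1) ((ucl d m)⁻¹ * x) ≤ (k : ℝ) * sm S (CF d R rw1) x := by
  have e1 : ∑ m ∈ R1, rw1 m * sm S (CF d R2 rw1) ((ucl d m)⁻¹ * x) =
      ∑ q ∈ R1 ×ˢ R2, rw1 (q.1 * q.2) * bt S ((ucl d (q.1 * q.2))⁻¹ * x) := by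
    rw [sum_product]
    refine sum_congr rfl fun m hm => ?_
    rw [sm_CF, mul_sum]
    refine sum_congr rfl fun n hn => ?_
    rw [C2a_mul, ucl_mul (h1 m hm) (h2 n hn), mul_inv_rev, mul_assoc (ucl d n)⁻¹, mul_assoc]
  have e2 : ∀ q ∈ R1 ×ˢ R2, q.1 * q.2 ∈ R := by
    intro q hq
    obtain ⟨hq1, hq2⟩ := mem_product.1 hq
    exact h3 _ hq1 _ hq2
  rw [e1, ← sum_fiberwise_of_maps_to e2, sm_CF, mul_sum]
  refine sum_le_sum fun N hN => ?_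
  have e3 : ∑ q ∈ (R1 ×ˢ R2).filter (fun q : ℕ × ℕ => q.1 * q.2 = N),
      rw1 (q.1 * q.2) * bt S ((ucl d (q.1 * q.2))⁻¹ * x) =
      (((R1 ×ˢ R2).filter (fun q : ℕ × ℕ => q.1 * q.2 = N)).card : ℝ) *
        (rw1 N * bt S ((ucl d N)⁻¹ * x)) := by
    rw [← nsmul_eq_mul, ← sum_const]
    refine sum_congr rfl fun q hq => ?_
    rw [(mem_filter.1 hq).2]
  have e4 : 0 ≤ rw1 N * bt S ((ucl d N)⁻¹ * x) := mul_nonneg (C2a_rw1 N) (bt_nonneg S _)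
  refine le_of_eq_of_le ?_ (mul_le_mul_of_nonneg_right (Nat.cast_le.2 (h4 N hN)) e4)
  exact e3

end Pool.Agent.Lib.MP_42948a_nt.EK
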