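import Pool.Agent.Lib.MP_42948a_nt.EK.TI0

/-!
# Multiples of squares (job TI5a)

`sq_sum`: every `n ∈ Ioc A B` divisible by `p^2`, `p > z`, is `p^2 k` with `1 ≤ k ≤ B`; the sum is `≤ ∑_{p > z, p ≤ B} (1/p^2) ∑_{k ≤ B} 1/k ≤ (1/z) (1 + log B)` (`∑_{p > z} 1/p^2 ≤ 1/z` for a natural `z ≥ 1`: telescoping with
`1/p^2 ≤ 1/(p-1) - 1/p`; `harmonic` sum `≤ 1 + log B`, `harmonic_le_one_add_log`).
-/

namespace Pool.Agent.Lib.MP_42948a_nt.EK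

open Finset Pool.Agent.Lib.MP_42948a_nt.OA Pool.Agent.Lib.MP_42948a_nt.AC Pool.Agent.Lib.MP_42948a_nt.TQ
  Pool.Agent.Lib.MP_42948a_nt.PS

private theorem TI5a_sq (z B : ℕ) (hz : 1 ≤ z) :
    ∑ p ∈ Ioc z B, 1 / ((p : ℝ) ^ 2) ≤ 1 / (z : ℝ) := by
  rcases le_or_gt z B with h | h
  · have h1 := sum_Ioc_inv_sq_le_sub (α := ℝ) (by omega : z ≠ 0) h
    have h2 : (0 : ℝ) ≤ (B : ℝ)⁻¹ := by positivity
    simp only [one_div]
    linarith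
  · rw [Finset.Ioc_eq_empty (by omega), Finset.sum_empty]
    positivity

private theorem TI5a_harm (B : ℕ) : ∑ k ∈ Icc 1 B, 1 / (k : ℝ) ≤ 1 + Real.log B := by
  have h1 := harmonic_le_one_add_log B
  rw [harmonic_eq_sum_Icc] at h1
  push_cast at h1
  simp only [one_div]
  exact h1

open Classical in
theorem sq_sum (z A B : ℕ) (hz : 1 ≤ z) (hB : 1 ≤ B) :
    ∑ n ∈ (Ioc A B).filter (fun n : ℕ => ∃ p : ℕ, p.Prime ∧ z < p ∧ p ^ 2 ∣ n), rw1 n ≤ 1 / (z : ℝ) * (1 + Real.log B) := by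
  have hex : ∀ n ∈ (Ioc A B).filter (fun n : ℕ => ∃ p : ℕ, p.Prime ∧ z < p ∧ p ^ 2 ∣ n),
      ∃ x : ℕ × ℕ, x ∈ Ioc z B ×ˢ Icc 1 B ∧ x.1 ^ 2 * x.2 = n := by
    intro n hn
    rw [Finset.mem_filter, Finset.mem_Ioc] at hn
    obtain ⟨⟨hA, hnB⟩, p, hp, hzp, k, hk⟩ := hn
    have hn0 : 1 ≤ n := by omega
    have hk0 : 1 ≤ k := by
      rcases Nat.eq_zero_or_pos k with h | h
      · rw [h, Nat.mul_zero] at hk
        omega
      · exact h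
    have hp1 : 1 ≤ p := hp.one_lt.le
    have hpp : p ≤ p ^ 2 := Nat.le_self_pow two_ne_zero p
    have h1 : p ^ 2 ≤ n := by
      rw [hk]
      exact Nat.le_mul_of_pos_right _ hk0
    have h2 : k ≤ n := by
      rw [hk]
      exact Nat.le_mul_of_pos_left _ (by positivity)
    refine ⟨(p, k), ?_, hk.symm⟩
    rw [Finset.mem_product, Finset.mem_Ioc, Finset.mem_Icc]
    exact ⟨⟨hzp, by omega⟩, hk0, by omega⟩
  choose! φ hφ1 hφ2 using hex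
  have hinj : Set.InjOn φ ((Ioc A B).filter
      (fun n : ℕ => ∃ p : ℕ, p.Prime ∧ z < p ∧ p ^ 2 ∣ n) : Finset ℕ) := by
    intro n hn m hm h
    rw [← hφ2 n hn, ← hφ2 m hm, h]
  have h1 : ∑ n ∈ (Ioc A B).filter (fun n : ℕ => ∃ p : ℕ, p.Prime ∧ z < p ∧ p ^ 2 ∣ n), rw1 n =
      ∑ x ∈ ((Ioc A B).filter
        (fun n : ℕ => ∃ p : ℕ, p.Prime ∧ z < p ∧ p ^ 2 ∣ n)).image φ, rw1 (x.1 ^ 2 * x.2) := by
    rw [Finset.sum_image hinj]
    exact Finset.sum_congr rfl fun n hn => by rw [hφ2 n hn]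
  have hsub : ((Ioc A B).filter
      (fun n : ℕ => ∃ p : ℕ, p.Prime ∧ z < p ∧ p ^ 2 ∣ n)).image φ ⊆ Ioc z B ×ˢ Icc 1 B := by
    intro x hx
    rw [Finset.mem_image] at hx
    obtain ⟨n, hn, rfl⟩ := hx
    exact hφ1 n hn
  rw [h1]
  refine (Finset.sum_le_sum_of_subset_of_nonneg hsub fun x _ _ => ?_).trans ?_
  · unfold rw1
    positivity
  · have h2 : ∑ x ∈ Ioc z B ×ˢ Icc 1 B, rw1 (x.1 ^ 2 * x.2) =
        (∑ p ∈ Ioc z B, 1 / ((p : ℝ) ^ 2)) * ∑ k ∈ Icc 1 B, 1 / (k : ℝ) := by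
      rw [Finset.sum_product, Finset.sum_mul_sum]
      refine Finset.sum_congr rfl fun p _ => Finset.sum_congr rfl fun k _ => ?_
      unfold rw1
      push_cast
      rw [div_mul_div_comm, one_mul]
    rw [h2]
    exact mul_le_mul (TI5a_sq z B hz) (TI5a_harm B)
      (Finset.sum_nonneg fun k _ => by positivity) (by positivity)

end Pool.Agent.Lib.MP_42948a_nt.EK
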