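import Pool.Agent.Lib.MP_42948a_nt.EK.Defs

/-!
# Smoothed coverage: definitions (no proofs)
-/

namespace Pool.Agent.Lib.MP_42948a_nt.EK

open Finset Pool.Agent.Lib.MP_42948a_nt.OA Pool.Agent.Lib.MP_42948a_nt.AC Pool.Agent.Lib.MP_42948a_nt.TQ
  Pool.Agent.Lib.MP_42948a_nt.PS

open Classical in
/-- The weighted sieve of level `x ^ ρ` for `P_2`, `x = d ^ a`, uniform in `a ∈ [a1, a2]` (proved by helper4) -/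
def SVP (ρ a1 a2 : ℝ) : Prop :=
  ∃ h0 c : ℝ, 0 < h0 ∧ 0 < c ∧ ∃ C d0 : ℕ, ∀ d : ℕ, d0 ≤ d → ∀ a : ℝ, a1 ≤ a → a ≤ a2 → ∃ ω : ℕ → ℝ,
    (∀ m, ω m ≠ 0 → 1 ≤ m ∧ (m : ℝ) ≤ (d : ℝ) ^ (ρ * a) ∧ m.Coprime d) ∧
    (∑ m ∈ Icc 1 ⌊(d : ℝ) ^ (ρ * a)⌋₊, |ω m| / m ≤ (Real.log d) ^ C) ∧
    (∀ n : ℕ, (d : ℝ) ^ a < n → (n : ℝ) ≤ (d : ℝ) ^ (a + h0) → n.Coprime d → ∑ m ∈ n.divisors, ω m ≤
      (if Rough ⌊(d : ℝ) ^ (9 / 100 : ℝ)⌋₊ n ∧ ArithmeticFunction.cardFactors n ≤ 2 then (1 : ℝ) else 0) +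
        (if ∃ p : ℕ, p.Prime ∧ (d : ℝ) ^ (9 / 100 : ℝ) < p ∧ p ^ 2 ∣ n then (1 : ℝ) else 0)) ∧
    (c * ((d : ℝ) / d.totient) / Real.log d ≤ ∑ m ∈ Icc 1 ⌊(d : ℝ) ^ (ρ * a)⌋₊, ω m / m)

open Classical in
/-- the numbers in the window `(d^v, d^u]` coprime to `d`, with all prime factors `> ⌊d^δ⌋` and at most two of them -/
noncomputable def P12 (d : ℕ) (δ v u : ℝ) : Finset ℕ :=
  (Icc 1 ⌊(d : ℝ) ^ u⌋₊).filter (fun n : ℕ => (d : ℝ) ^ v < n ∧ n.Coprime d ∧ Rough ⌊(d : ℝ) ^ δ⌋₊ n ∧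
    ArithmeticFunction.cardFactors n ≤ 2)

/-- Burgess' bound with the exponent `1/3` (this is `TB.Bur3`, proved in `TH/M2.lean`, with `1/3 + κ` in place of `1/4 + (1/12 + κ)`) -/
def B3 : Prop := ∀ κ : ℝ, 0 < κ → ∃ κ' : ℝ, 0 < κ' ∧ ∃ d0 : ℕ, ∀ d : ℕ, d0 ≤ d → ∀ χ : DirichletCharacter ℂ d, χ ≠ 1 → ∀ N : ℕ,
  (d : ℝ) ^ (1 / 3 + κ) ≤ (N : ℝ) → ‖∑ n ∈ Icc 1 N, χ (n : ZMod d)‖ ≤ (N : ℝ) * (d : ℝ) ^ (-κ')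

open Classical in
/-- the coprime harmonic sum -/
noncomputable def hc (d A B : ℕ) : ℝ := ∑ n ∈ (Ioc A B).filter (fun n => n.Coprime d), rw1 n

end Pool.Agent.Lib.MP_42948a_nt.EK
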