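import Pool.Agent.Lib.MP_42948a_nt.EK.Defs
import Pool.Agent.Lib.MP_42948a_nt.TQ.B2

/-!
# The Fejer kernel (job A2)

`bh_one`: `1 * ψ = ψ ∈ S`. `bh_supp`: if `bh S χ ≠ 0` there is `ψ ∈ S` with `χ ψ ∈ S`, so `χ = (χ ψ) ψ⁻¹` is in the image of `S ×ˢ S` under `(a, b) ↦ a b⁻¹`.
`SF_bt`: `‖∑ ψ ∈ S, ev ψ g‖^2 = ∑_{ψ, ψ' ∈ S} ev ψ g * conj (ev ψ' g)` (`Complex.mul_conj'` or `Complex.conj_mul'`), `conj (ev ψ' g) = ev ψ'⁻¹ g` (`conj_ev'`), `ev_mul_char`; so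
`SF (bt S) χ = (1/(#S φ)) ∑_{ψ, ψ' ∈ S} ∑_g ev (ψ ψ'⁻¹ χ⁻¹) g`, and the inner sum is `φ` if `ψ = χ ψ'` and `0` otherwise (`sum_ev_unit`). For fixed `ψ'` there is exactly one `ψ ∈ S` with
`ψ = χ ψ'` if `χ ψ' ∈ S`, none otherwise. `φ = Fintype.card (ZMod d)ˣ > 0`, `#S > 0`.
`sum_bt`: `SF (bt S) 1 = ∑_g bt S g` (`ev 1 g = 1`: `MulChar.one_apply_coe`), and `bh S 1 = 1`.
-/

namespace Pool.Agent.Lib.MP_42948a_nt.EK

open Finset Pool.Agent.Lib.MP_42948a_nt.OA Pool.Agent.Lib.MP_42948a_nt.AC Pool.Agent.Lib.MP_42948a_nt.TQ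
  Pool.Agent.Lib.MP_42948a_nt.PS

theorem bh_nonneg {X : Type*} [CommGroup X] (S : Finset X) (χ : X) : 0 ≤ bh S χ := by
  unfold bh
  positivity

theorem bh_le_one {X : Type*} [CommGroup X] (S : Finset X) (χ : X) : bh S χ ≤ 1 := by
  classical
  unfold bh
  refine div_le_one_of_le₀ ?_ (Nat.cast_nonneg _)
  exact_mod_cast Finset.card_filter_le _ _

theorem bh_one {X : Type*} [CommGroup X] (S : Finset X) (hS : S.Nonempty) : bh S 1 = 1 := by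
  classical
  unfold bh
  rw [Finset.filter_true_of_mem (fun ψ hψ => by rw [one_mul]; exact hψ)]
  exact div_self (Nat.cast_ne_zero.2 (Finset.card_ne_zero.2 hS))

open Classical in
theorem bh_supp {X : Type*} [CommGroup X] [Fintype X] (S : Finset X) :
    ((univ : Finset X).filter (fun χ => bh S χ ≠ 0)).card ≤ S.card ^ 2 := by
  have h1 : (univ : Finset X).filter (fun χ => bh S χ ≠ 0) ⊆
      (S ×ˢ S).image fun p : X × X => p.1 * p.2⁻¹ := by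
    intro χ hχ
    have h2 := (Finset.mem_filter.1 hχ).2
    have h3 : (S.filter (fun ψ => χ * ψ ∈ S)).card ≠ 0 := by
      intro h4
      apply h2
      unfold bh
      rw [h4, Nat.cast_zero, zero_div]
    obtain ⟨ψ, hψ⟩ := Finset.card_ne_zero.1 h3
    obtain ⟨h5, h6⟩ := Finset.mem_filter.1 hψ
    refine Finset.mem_image.2 ⟨(χ * ψ, ψ), Finset.mem_product.2 ⟨h6, h5⟩, ?_⟩
    exact mul_inv_cancel_right χ ψ
  refine (Finset.card_le_card h1).trans (Finset.card_image_le.trans ?_)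
  rw [Finset.card_product, sq]

theorem bt_nonneg {d : ℕ} [NeZero d] (S : Finset (DirichletCharacter ℂ d)) (g : (ZMod d)ˣ) : 0 ≤ bt S g := by
  unfold bt
  positivity

theorem SF_bt {d : ℕ} [NeZero d] (S : Finset (DirichletCharacter ℂ d)) (hS : S.Nonempty) (χ : DirichletCharacter ℂ d) :
    SF (bt S) χ = ((bh S χ : ℝ) : ℂ) := by
  classical
  have hφ : (Fintype.card (ZMod d)ˣ : ℂ) ≠ 0 := Nat.cast_ne_zero.2 Fintype.card_ne_zero
  have hS' : (S.card : ℂ) ≠ 0 := Nat.cast_ne_zero.2 (Finset.card_ne_zero.2 hS)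
  have h1 : ∀ c : (ZMod d)ˣ, ((bt S c : ℝ) : ℂ) * (starRingEnd ℂ) (ev χ c) =
      1 / ((S.card : ℂ) * (Fintype.card (ZMod d)ˣ : ℂ)) *
        ∑ ψ' ∈ S, ∑ ψ ∈ S, ev (ψ * ψ'⁻¹ * χ⁻¹) c := by
    intro c
    have h2 : ((‖∑ ψ ∈ S, ev ψ c‖ ^ 2 : ℝ) : ℂ) =
        ∑ ψ' ∈ S, ∑ ψ ∈ S, ev ψ c * ev ψ'⁻¹ c := by
      rw [Complex.ofReal_pow, ← Complex.mul_conj', map_sum, Finset.sum_mul_sum, Finset.sum_comm]
      refine Finset.sum_congr rfl fun ψ' _ => Finset.sum_congr rfl fun ψ _ => ?_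
      rw [conj_ev']
    have h3 : ∑ ψ' ∈ S, ∑ ψ ∈ S, ev (ψ * ψ'⁻¹ * χ⁻¹) c =
        (∑ ψ' ∈ S, ∑ ψ ∈ S, ev ψ c * ev ψ'⁻¹ c) * ev χ⁻¹ c := by
      rw [Finset.sum_mul]
      refine Finset.sum_congr rfl fun ψ' _ => ?_
      rw [Finset.sum_mul]
      refine Finset.sum_congr rfl fun ψ _ => ?_
      rw [ev_mul_char, ev_mul_char]
    unfold bt
    rw [Complex.ofReal_div, h2, conj_ev', Complex.ofReal_mul, Complex.ofReal_natCast,
      Complex.ofReal_natCast, h3]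
    ring
  unfold SF
  rw [Finset.sum_congr rfl fun c _ => h1 c, ← Finset.mul_sum, Finset.sum_comm]
  have h3 : ∀ ψ' ∈ S, ∑ c, ∑ ψ ∈ S, ev (ψ * ψ'⁻¹ * χ⁻¹) c =
      if χ * ψ' ∈ S then (Fintype.card (ZMod d)ˣ : ℂ) else 0 := by
    intro ψ' _
    rw [Finset.sum_comm]
    have h4 : ∀ ψ ∈ S, ∑ c, ev (ψ * ψ'⁻¹ * χ⁻¹) c =
        if ψ = χ * ψ' then (Fintype.card (ZMod d)ˣ : ℂ) else 0 := by
      intro ψ _
      rw [sum_ev_unit]
      have h5 : ψ * ψ'⁻¹ * χ⁻¹ = 1 ↔ ψ = χ * ψ' := by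
        rw [mul_inv_eq_one, mul_inv_eq_iff_eq_mul]
      by_cases h6 : ψ = χ * ψ'
      · rw [if_pos h6, if_pos (h5.2 h6)]
      · rw [if_neg h6, if_neg fun h7 => h6 (h5.1 h7)]
    rw [Finset.sum_congr rfl h4, Finset.sum_ite_eq']
  rw [Finset.sum_congr rfl h3, ← Finset.sum_filter, Finset.sum_const, nsmul_eq_mul]
  have h7 : bh S χ = ((S.filter (fun ψ => χ * ψ ∈ S)).card : ℝ) / (S.card : ℝ) := by
    unfold bh
    congr
  rw [h7, Complex.ofReal_div, Complex.ofReal_natCast, Complex.ofReal_natCast]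
  field_simp

theorem sum_bt {d : ℕ} [NeZero d] (S : Finset (DirichletCharacter ℂ d)) (hS : S.Nonempty) : ∑ g, bt S g = 1 := by
  have h1 := SF_bt S hS 1
  rw [bh_one S hS, Complex.ofReal_one] at h1
  unfold SF at h1
  have h2 : ∀ c : (ZMod d)ˣ, ev (1 : DirichletCharacter ℂ d) c = 1 := by
    intro c
    unfold ev
    exact MulChar.one_apply_coe c
  simp only [h2, map_one, mul_one] at h1
  exact_mod_cast h1

end Pool.Agent.Lib.MP_42948a_nt.EK
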