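import Pool.Agent.Lib.MP_42948a_nt.EK.Defs
import Pool.Agent.Lib.MP_42948a_nt.TQ.B2

/-!
# Convolution on `(ZMod d)ˣ` (job A3)

`cv f g x = ∑_y f y g (y⁻¹ x)`. `cv_comm`: substitute `y ↦ x y⁻¹` (`Fintype.sum_equiv` / `Equiv.sum_comp`), `(x y⁻¹)⁻¹ x = y`. `cv_assoc`: exchange the sums and substitute.
`sum_cv`: exchange, `∑_x g (y⁻¹ x) = ∑_x g x` (`Equiv.sum_comp (Equiv.mulLeft y⁻¹)`). `SF_cv`: `ev χ x = ev χ y * ev χ (y⁻¹ x)` (`ev_mul`), conj is multiplicative.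
`cv_le`, `cv_ge`: termwise. `cv_exists`: a positive sum of products of nonnegative numbers has a nonzero term.
`norm_SF_le`: triangle inequality, `norm_ev`. `SF_one`: `ev 1 c = 1`. `l2_of_le`: `parseval_SF` (`TQ/B2.lean`): `∑ ‖SF h χ‖^2 = φ ∑ h^2 ≤ φ φ (C/φ)^2`.
`diff_le`: `φ (h1 a - h2 a) = ∑_χ (SF h1 χ - SF h2 χ) ev χ a` by `inversion` (`TQ/B2.lean`), `norm_ev`.
-/

namespace Pool.Agent.Lib.MP_42948a_nt.EK

open Finset Pool.Agent.Lib.MP_42948a_nt.OA Pool.Agent.Lib.MP_42948a_nt.AC Pool.Agent.Lib.MP_42948a_nt.TQ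
  Pool.Agent.Lib.MP_42948a_nt.PS

variable {d : ℕ} [NeZero d]

theorem cv_nonneg (f g : (ZMod d)ˣ → ℝ) (hf : ∀ x, 0 ≤ f x) (hg : ∀ x, 0 ≤ g x) (x : (ZMod d)ˣ) : 0 ≤ cv f g x :=
  Finset.sum_nonneg fun y _ => mul_nonneg (hf y) (hg _)

theorem cv_comm (f g : (ZMod d)ˣ → ℝ) : cv f g = cv g f := by
  funext x
  unfold cv
  refine Fintype.sum_equiv ((Equiv.inv (ZMod d)ˣ).trans (Equiv.mulRight x)) _ _ fun y => ?_
  have h1 : ((Equiv.inv (ZMod d)ˣ).trans (Equiv.mulRight x)) y = y⁻¹ * x := rfl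
  rw [h1, mul_inv, inv_inv, mul_assoc, inv_mul_cancel, mul_one, mul_comm]

theorem cv_assoc (f g h : (ZMod d)ˣ → ℝ) : cv (cv f g) h = cv f (cv g h) := by
  funext x
  unfold cv
  have e1 : ∀ y : (ZMod d)ˣ, (∑ z, f z * g (z⁻¹ * y)) * h (y⁻¹ * x) =
      ∑ z, f z * (g (z⁻¹ * y) * h (y⁻¹ * x)) := fun y => by
    rw [Finset.sum_mul]
    exact Finset.sum_congr rfl fun z _ => mul_assoc _ _ _
  rw [Finset.sum_congr rfl fun y _ => e1 y, Finset.sum_comm]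
  refine Finset.sum_congr rfl fun z _ => ?_
  rw [← Finset.mul_sum]
  congr 1
  refine Fintype.sum_equiv (Equiv.mulLeft z⁻¹) _ _ fun y => ?_
  rw [Equiv.coe_mulLeft]
  congr 2
  rw [mul_inv_rev, inv_inv, mul_assoc, mul_inv_cancel_left]

theorem sum_cv (f g : (ZMod d)ˣ → ℝ) : ∑ x, cv f g x = (∑ x, f x) * ∑ x, g x := by
  unfold cv
  rw [Finset.sum_comm, Finset.sum_mul]
  refine Finset.sum_congr rfl fun y _ => ?_
  rw [← Finset.mul_sum]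
  congr 1
  exact Equiv.sum_comp (Equiv.mulLeft y⁻¹) g

theorem SF_cv (f g : (ZMod d)ˣ → ℝ) (χ : DirichletCharacter ℂ d) : SF (cv f g) χ = SF f χ * SF g χ := by
  have e1 : ∀ x : (ZMod d)ˣ, ((cv f g x : ℝ) : ℂ) * (starRingEnd ℂ) (ev χ x) =
      ∑ y, ((f y : ℂ) * (starRingEnd ℂ) (ev χ y)) *
        ((g (y⁻¹ * x) : ℂ) * (starRingEnd ℂ) (ev χ (y⁻¹ * x))) := fun x => by
    unfold cv
    rw [Complex.ofReal_sum, Finset.sum_mul]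
    refine Finset.sum_congr rfl fun y _ => ?_
    have h1 : ev χ x = ev χ y * ev χ (y⁻¹ * x) := by
      rw [← ev_mul, mul_inv_cancel_left]
    rw [h1, map_mul, Complex.ofReal_mul]
    ring
  unfold SF
  rw [Finset.sum_congr rfl fun x _ => e1 x, Finset.sum_comm, Finset.sum_mul]
  refine Finset.sum_congr rfl fun y _ => ?_
  rw [← Finset.mul_sum]
  congr 1
  exact Equiv.sum_comp (Equiv.mulLeft y⁻¹) fun c => (g c : ℂ) * (starRingEnd ℂ) (ev χ c)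

theorem cv_le (f g : (ZMod d)ˣ → ℝ) (hf : ∀ x, 0 ≤ f x) (C : ℝ) (hg : ∀ x, g x ≤ C) (x : (ZMod d)ˣ) :
    cv f g x ≤ (∑ y, f y) * C := by
  unfold cv
  rw [Finset.sum_mul]
  exact Finset.sum_le_sum fun y _ => mul_le_mul_of_nonneg_left (hg _) (hf y)

theorem cv_ge (f g : (ZMod d)ˣ → ℝ) (hf : ∀ x, 0 ≤ f x) (C : ℝ) (hg : ∀ x, C ≤ g x) (x : (ZMod d)ˣ) :
    (∑ y, f y) * C ≤ cv f g x := by
  unfold cv
  rw [Finset.sum_mul]
  exact Finset.sum_le_sum fun y _ => mul_le_mul_of_nonneg_left (hg _) (hf y)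

theorem cv_mono (f g g' : (ZMod d)ˣ → ℝ) (hf : ∀ x, 0 ≤ f x) (hg : ∀ x, g x ≤ g' x) (x : (ZMod d)ˣ) :
    cv f g x ≤ cv f g' x :=
  Finset.sum_le_sum fun y _ => mul_le_mul_of_nonneg_left (hg _) (hf y)

theorem cv_exists (f g : (ZMod d)ˣ → ℝ) (hf : ∀ x, 0 ≤ f x) (hg : ∀ x, 0 ≤ g x) (a : (ZMod d)ˣ) (h : 0 < cv f g a) :
    ∃ x y : (ZMod d)ˣ, x * y = a ∧ 0 < f x ∧ 0 < g y := by
  unfold cv at h
  obtain ⟨y, -, hy⟩ := Finset.exists_ne_zero_of_sum_ne_zero h.ne'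
  refine ⟨y, y⁻¹ * a, mul_inv_cancel_left _ _, ?_, ?_⟩
  · exact lt_of_le_of_ne (hf y) fun h0 => hy (by rw [← h0, zero_mul])
  · exact lt_of_le_of_ne (hg _) fun h0 => hy (by rw [← h0, mul_zero])

theorem SF_one (f : (ZMod d)ˣ → ℝ) : SF f 1 = ((∑ x, f x : ℝ) : ℂ) := by
  unfold SF
  rw [Complex.ofReal_sum]
  refine Finset.sum_congr rfl fun x _ => ?_
  have h1 : ev (1 : DirichletCharacter ℂ d) x = 1 := by
    unfold ev
    exact MulChar.one_apply_coe x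
  rw [h1, map_one, mul_one]

theorem norm_SF_le (f : (ZMod d)ˣ → ℝ) (hf : ∀ x, 0 ≤ f x) (χ : DirichletCharacter ℂ d) : ‖SF f χ‖ ≤ ∑ x, f x := by
  unfold SF
  refine (norm_sum_le _ _).trans (Finset.sum_le_sum fun x _ => ?_)
  rw [norm_mul, RCLike.norm_conj, norm_ev, mul_one, Complex.norm_real, Real.norm_eq_abs, abs_of_nonneg (hf x)]

theorem l2_of_le (h : (ZMod d)ˣ → ℝ) (C : ℝ) (h0 : ∀ x, 0 ≤ h x) (h1 : ∀ x, h x ≤ C / (Fintype.card (ZMod d)ˣ : ℝ)) :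
    ∑ χ : DirichletCharacter ℂ d, ‖SF h χ‖ ^ 2 ≤ C ^ 2 := by
  rw [parseval_SF]
  have hφ : (0 : ℝ) < (Fintype.card (ZMod d)ˣ : ℝ) := by
    exact_mod_cast Fintype.card_pos
  have h2 : ∑ c : (ZMod d)ˣ, h c ^ 2 ≤ (Fintype.card (ZMod d)ˣ : ℝ) * (C / (Fintype.card (ZMod d)ˣ : ℝ)) ^ 2 := by
    refine (Finset.sum_le_sum fun c _ => pow_le_pow_left₀ (h0 c) (h1 c) 2).trans ?_
    rw [Finset.sum_const, Finset.card_univ, nsmul_eq_mul]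
  refine (mul_le_mul_of_nonneg_left h2 hφ.le).trans ?_
  rw [div_pow]
  apply le_of_eq
  field_simp

theorem diff_le (h1 h2 : (ZMod d)ˣ → ℝ) (a : (ZMod d)ˣ) :
    h1 a - h2 a ≤ 1 / (Fintype.card (ZMod d)ˣ : ℝ) * ∑ χ : DirichletCharacter ℂ d, ‖SF h1 χ - SF h2 χ‖ := by
  have hφ : (0 : ℝ) < (Fintype.card (ZMod d)ˣ : ℝ) := by
    exact_mod_cast Fintype.card_pos
  have e1 : ∑ χ : DirichletCharacter ℂ d, (SF h1 χ - SF h2 χ) * ev χ a =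
      (((Fintype.card (ZMod d)ˣ : ℝ) * (h1 a - h2 a) : ℝ) : ℂ) := by
    have e2 : ∀ χ : DirichletCharacter ℂ d, (SF h1 χ - SF h2 χ) * ev χ a =
        SF h1 χ * ev χ a - SF h2 χ * ev χ a := fun χ => sub_mul _ _ _
    rw [Finset.sum_congr rfl fun χ _ => e2 χ, Finset.sum_sub_distrib, inversion, inversion]
    push_cast
    ring
  have e3 : (Fintype.card (ZMod d)ˣ : ℝ) * (h1 a - h2 a) ≤ ∑ χ : DirichletCharacter ℂ d, ‖SF h1 χ - SF h2 χ‖ := by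
    calc (Fintype.card (ZMod d)ˣ : ℝ) * (h1 a - h2 a)
        ≤ |(Fintype.card (ZMod d)ˣ : ℝ) * (h1 a - h2 a)| := le_abs_self _
      _ = ‖∑ χ : DirichletCharacter ℂ d, (SF h1 χ - SF h2 χ) * ev χ a‖ := by
          rw [e1, Complex.norm_real, Real.norm_eq_abs]
      _ ≤ ∑ χ : DirichletCharacter ℂ d, ‖(SF h1 χ - SF h2 χ) * ev χ a‖ := norm_sum_le _ _
      _ = ∑ χ : DirichletCharacter ℂ d, ‖SF h1 χ - SF h2 χ‖ := by
          refine Finset.sum_congr rfl fun χ _ => ?_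
          rw [norm_mul, norm_ev, mul_one]
  rw [one_div, inv_mul_eq_div, le_div_iff₀ hφ]
  linarith

end Pool.Agent.Lib.MP_42948a_nt.EK
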