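import Pool.Agent.Lib.MP_42948a_nt.EK.A2
import Pool.Agent.Lib.MP_42948a_nt.EK.A3

/-!
# Smoothed functions are bounded (job A4)

`sm S f = cv f (bt S)`. `sm_nonneg`, `sum_sm`, `SF_sm`: from `cv_nonneg`, `sum_cv`, `SF_cv` (`A3.lean`) and `bt_nonneg`, `sum_bt`, `SF_bt` (`A2.lean`). `sm_mono`: `cv_comm`, `cv_mono`.
`sm_upper`: `inversion` (`TQ/B2.lean`): `φ sm S Φ x = ∑_χ SF Φ χ * bh S χ * ev χ x`; take norms (the left side is a real number, `|.|` of it): the term `χ = 1` has norm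
`≤ ‖SF Φ 1‖ = |∑ Φ| = ∑ Φ` (`SF_one`, `bh_le_one`, `∑ Φ ≥ 0` since `Φ ≥ 0`), the terms with `bh S χ = 0` vanish, the others have norm `≤ δ`, there are at most `#S^2` of them (`bh_supp`).
`level_card`: let `A = {x : k/φ ≤ h x}`. `1 = ∑_{x ∈ A} h + ∑_{x ∉ A} h ≤ #A * (M/N) + N * (k/N)`, `N = Fintype.card G > 0`; multiply by `N`.
-/

namespace Pool.Agent.Lib.MP_42948a_nt.EK

open Finset Pool.Agent.Lib.MP_42948a_nt.OA Pool.Agent.Lib.MP_42948a_nt.AC Pool.Agent.Lib.MP_42948a_nt.TQ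
  Pool.Agent.Lib.MP_42948a_nt.PS

variable {d : ℕ} [NeZero d]

theorem sm_nonneg (S : Finset (DirichletCharacter ℂ d)) (f : (ZMod d)ˣ → ℝ) (hf : ∀ x, 0 ≤ f x) (x : (ZMod d)ˣ) : 0 ≤ sm S f x := by
  exact cv_nonneg f (bt S) hf (bt_nonneg S) x

theorem sum_sm (S : Finset (DirichletCharacter ℂ d)) (hS : S.Nonempty) (f : (ZMod d)ˣ → ℝ) : ∑ x, sm S f x = ∑ x, f x := by
  unfold sm
  rw [sum_cv, sum_bt S hS, mul_one]

theorem SF_sm (S : Finset (DirichletCharacter ℂ d)) (hS : S.Nonempty) (f : (ZMod d)ˣ → ℝ) (χ : DirichletCharacter ℂ d) :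
    SF (sm S f) χ = SF f χ * ((bh S χ : ℝ) : ℂ) := by
  unfold sm
  rw [SF_cv, SF_bt S hS]

theorem sm_mono (S : Finset (DirichletCharacter ℂ d)) (f g : (ZMod d)ˣ → ℝ) (hfg : ∀ x, f x ≤ g x) (x : (ZMod d)ˣ) :
    sm S f x ≤ sm S g x := by
  unfold sm
  rw [cv_comm f, cv_comm g]
  exact cv_mono (bt S) f g (bt_nonneg S) hfg x

theorem sm_upper (S : Finset (DirichletCharacter ℂ d)) (hS : S.Nonempty) (Φ : (ZMod d)ˣ → ℝ) (hΦ : ∀ x, 0 ≤ Φ x) (δ : ℝ) (hδ : 0 ≤ δ)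
    (h : ∀ χ : DirichletCharacter ℂ d, χ ≠ 1 → ‖SF Φ χ‖ ≤ δ) (x : (ZMod d)ˣ) :
    sm S Φ x ≤ (∑ y, Φ y + (S.card : ℝ) ^ 2 * δ) / (Fintype.card (ZMod d)ˣ : ℝ) := by
  classical
  have hN : (0 : ℝ) < (Fintype.card (ZMod d)ˣ : ℝ) := by exact_mod_cast Fintype.card_pos
  have hsum0 : 0 ≤ ∑ y, Φ y := Finset.sum_nonneg fun y _ => hΦ y
  have hinv := inversion (sm S Φ) x
  have hnorm : (Fintype.card (ZMod d)ˣ : ℝ) * |sm S Φ x| ≤
      ∑ χ : DirichletCharacter ℂ d, ‖SF Φ χ‖ * bh S χ := by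
    have h1 : ‖∑ χ : DirichletCharacter ℂ d, SF (sm S Φ) χ * ev χ x‖ ≤
        ∑ χ : DirichletCharacter ℂ d, ‖SF Φ χ‖ * bh S χ := by
      refine (norm_sum_le _ _).trans (Finset.sum_le_sum fun χ _ => ?_)
      have h2 : ‖ev χ x‖ ≤ 1 := by
        unfold ev
        exact DirichletCharacter.norm_le_one χ _
      rw [norm_mul, SF_sm S hS, norm_mul, Complex.norm_real, Real.norm_of_nonneg (bh_nonneg S χ)]
      have h3 : 0 ≤ ‖SF Φ χ‖ * bh S χ := mul_nonneg (norm_nonneg _) (bh_nonneg S χ)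
      calc ‖SF Φ χ‖ * bh S χ * ‖ev χ x‖ ≤ ‖SF Φ χ‖ * bh S χ * 1 := mul_le_mul_of_nonneg_left h2 h3
        _ = _ := mul_one _
    rw [hinv, norm_mul, Complex.norm_real, Complex.norm_natCast, Real.norm_eq_abs] at h1
    exact h1
  have hpt : ∀ χ : DirichletCharacter ℂ d, ‖SF Φ χ‖ * bh S χ ≤
      (if χ = 1 then ∑ y, Φ y else 0) + (if bh S χ ≠ 0 then δ else 0) := by
    intro χ
    by_cases h1 : χ = 1
    · subst h1
      rw [if_pos rfl]
      have h2 : ‖SF Φ 1‖ ≤ ∑ y, Φ y := norm_SF_le Φ hΦ 1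
      have h3 : ‖SF Φ 1‖ * bh S (1 : DirichletCharacter ℂ d) ≤ (∑ y, Φ y) * 1 :=
        mul_le_mul h2 (bh_le_one S _) (bh_nonneg S _) hsum0
      have h4 : (0 : ℝ) ≤ if bh S (1 : DirichletCharacter ℂ d) ≠ 0 then δ else 0 := by
        split_ifs <;> first | exact hδ | exact le_refl _
      linarith
    · rw [if_neg h1, zero_add]
      by_cases h2 : bh S χ = 0
      · rw [h2, mul_zero]
        simp
      · rw [if_pos h2]
        have h3 : ‖SF Φ χ‖ * bh S χ ≤ δ * 1 :=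
          mul_le_mul (h χ h1) (bh_le_one S _) (bh_nonneg S _) hδ
        linarith
  have hsum : ∑ χ : DirichletCharacter ℂ d, ‖SF Φ χ‖ * bh S χ ≤ ∑ y, Φ y + (S.card : ℝ) ^ 2 * δ := by
    refine (Finset.sum_le_sum fun χ _ => hpt χ).trans ?_
    rw [Finset.sum_add_distrib, Finset.sum_ite_eq' univ (1 : DirichletCharacter ℂ d), if_pos (mem_univ _),
      ← Finset.sum_filter, Finset.sum_const, nsmul_eq_mul]
    have h5 : (((univ : Finset (DirichletCharacter ℂ d)).filter (fun χ => bh S χ ≠ 0)).card : ℝ) ≤ (S.card : ℝ) ^ 2 := by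
      have := bh_supp S
      exact_mod_cast this
    have h6 := mul_le_mul_of_nonneg_right h5 hδ
    linarith
  rw [le_div_iff₀ hN]
  have h7 := le_abs_self (sm S Φ x)
  have h8 : sm S Φ x * (Fintype.card (ZMod d)ˣ : ℝ) ≤ (Fintype.card (ZMod d)ˣ : ℝ) * |sm S Φ x| := by
    rw [mul_comm]
    exact mul_le_mul_of_nonneg_left h7 hN.le
  linarith

open Classical in
theorem level_card {G : Type*} [Fintype G] [Nonempty G] (h : G → ℝ) (hs : ∑ x, h x = 1) (M k : ℝ) (hk : 0 ≤ k)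
    (hM : ∀ x, h x ≤ M / (Fintype.card G : ℝ)) :
    (1 - k) * (Fintype.card G : ℝ) ≤ M * (((univ : Finset G).filter (fun x => k / (Fintype.card G : ℝ) ≤ h x)).card : ℝ) := by
  classical
  have hN : (0 : ℝ) < (Fintype.card G : ℝ) := by exact_mod_cast Fintype.card_pos
  set A := (univ : Finset G).filter (fun x => k / (Fintype.card G : ℝ) ≤ h x) with hA
  have hsplit := Finset.sum_filter_add_sum_filter_not (univ : Finset G) (fun x => k / (Fintype.card G : ℝ) ≤ h x) h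
  rw [hs, ← hA] at hsplit
  have h1 : ∑ x ∈ A, h x ≤ (A.card : ℝ) * (M / (Fintype.card G : ℝ)) := by
    have := Finset.sum_le_card_nsmul A h (M / (Fintype.card G : ℝ)) fun x _ => hM x
    rwa [nsmul_eq_mul] at this
  have h2 : ∑ x ∈ (univ : Finset G).filter (fun x => ¬ k / (Fintype.card G : ℝ) ≤ h x), h x ≤ k := by
    have h3 := Finset.sum_le_card_nsmul ((univ : Finset G).filter (fun x => ¬ k / (Fintype.card G : ℝ) ≤ h x)) h
      (k / (Fintype.card G : ℝ)) fun x hx => by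
        rw [Finset.mem_filter] at hx
        exact (not_le.1 hx.2).le
    rw [nsmul_eq_mul] at h3
    have h4 : (((univ : Finset G).filter (fun x => ¬ k / (Fintype.card G : ℝ) ≤ h x)).card : ℝ) ≤
        (Fintype.card G : ℝ) := by
      exact_mod_cast Finset.card_le_univ _
    have h5 : 0 ≤ k / (Fintype.card G : ℝ) := div_nonneg hk hN.le
    have h6 := mul_le_mul_of_nonneg_right h4 h5
    have h7 : (Fintype.card G : ℝ) * (k / (Fintype.card G : ℝ)) = k := by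
      field_simp
    linarith
  have h8 : 1 - k ≤ (A.card : ℝ) * (M / (Fintype.card G : ℝ)) := by linarith
  have h9 := mul_le_mul_of_nonneg_right h8 hN.le
  have h10 : (A.card : ℝ) * (M / (Fintype.card G : ℝ)) * (Fintype.card G : ℝ) = M * (A.card : ℝ) := by
    field_simp
  rw [h10] at h9
  exact h9

end Pool.Agent.Lib.MP_42948a_nt.EK
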