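import Pool.Agent.Lib.MP_42948a_nt.EK.Defs
import Pool.Agent.Lib.MP_42948a_nt.TQ.A3
import Pool.Agent.Lib.MP_42948a_nt.TQ.A4

/-!
# Rough numbers of a residue class in a dyadic block (job C1a)

`sieve2` (`TQ/A3.lean`) with `τ = 1`, `A = {n ∈ Ioc M (2 M) : n coprime to d, ucl d n = g}` (equivalently `(n : ZMod d) = g`; `ucl_eq`, `ucl_val`), `w = 1`, the density `gd d` (`adm_gd`), `X = M/d`, `R T = 1`.
For `T ∈ TT z K` (a set of primes, `P = ∏ p ∈ T, p`): if some `p ∈ T` divides `d` there is no `n ∈ A` divisible by all `p ∈ T`, and `∏ gd d p = 0` (`gd_prod`); otherwise `P` is coprime to `d`, the conditions `P ∣ n`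
(`Finset.prod_primes_dvd` and its converse), `n ≡ g mod d` describe one residue class mod `P d` (`Nat.chineseRemainder` / `ZMod`), so the number of `n ∈ Ioc M (2M)` is `M/(P d) + O(1)`: `|# - M/(P d)| ≤ 1`
(an interval of `M` consecutive integers contains `⌊M/q⌋` or `⌈M/q⌉` members of a class mod `q = P d`; `Nat.count_modEq_card`, `Int.Ioc_filter_modEq_card` or a direct proof; see the proofs in `OA/`, `TQ/G3.lean`,
e.g. `coset_count_mul`). `∏ p ∈ T, gd d p = 1/P`. `PP z` members do not divide `n` iff `Rough z n` (`n > 0`). The sieve gives: the number `Z` of rough members satisfies `Z - X V ≤ 1 * X V + #(TT z K)`, `V = VV d z`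
(`∏ p ∈ PP z, (1 - gd d p)`), `#(TT z K) ≤ z^K` (`card_TT`).
-/

namespace Pool.Agent.Lib.MP_42948a_nt.EK

open Finset Pool.Agent.Lib.MP_42948a_nt.OA Pool.Agent.Lib.MP_42948a_nt.AC Pool.Agent.Lib.MP_42948a_nt.TQ
  Pool.Agent.Lib.MP_42948a_nt.PS

private theorem C1a_prime {z : ℕ} {T : Finset ℕ} (hT : T ⊆ PP z) : ∀ p ∈ T, p.Prime := by
  intro p hp
  have h := hT hp
  unfold PP at h
  rw [mem_filter] at h
  exact h.2

private theorem C1a_rough {z n : ℕ} (hn : 0 < n) : (∀ p ∈ PP z, ¬ p ∣ n) ↔ Rough z n := by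
  constructor
  · intro h
    refine ⟨hn, fun p hp hpn => ?_⟩
    by_contra hz
    push Not at hz
    exact h p (by unfold PP; rw [mem_filter, mem_Icc]; exact ⟨⟨hp.one_lt.le, hz⟩, hp⟩) hpn
  · intro h p hp hpn
    unfold PP at hp
    rw [mem_filter, mem_Icc] at hp
    have := h.2 p hp.2 hpn
    omega

private theorem C1a_cop {d n : ℕ} {g : (ZMod d)ˣ} (h : (n : ZMod d) = (g : ZMod d)) : n.Coprime d := by
  rw [← ZMod.isUnit_iff_coprime, h]
  exact Units.isUnit _

private theorem C1a_iff {d n : ℕ} {g : (ZMod d)ˣ} : (n.Coprime d ∧ ucl d n = g) ↔ (n : ZMod d) = (g : ZMod d) := by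
  constructor
  · rintro ⟨h1, h2⟩
    rw [← h2, ucl_val h1]
  · intro h
    exact ⟨C1a_cop h, ucl_eq (C1a_cop h) h⟩

private theorem C1a_int (a b q r : ℕ) (hab : a ≤ b) (hq : 0 < q) :
    |(((Ioc a b).filter (fun n : ℕ => n ≡ r [MOD q])).card : ℝ) - ((b : ℝ) - a) / q| ≤ 1 := by
  have h := Nat.Ioc_filter_modEq_card a b hq r
  have hqQ : (0 : ℚ) < q := by exact_mod_cast hq
  have hmono : ⌊((a : ℚ) - r) / q⌋ ≤ ⌊((b : ℚ) - r) / q⌋ := by
    refine Int.floor_le_floor ?_
    have : (a : ℚ) ≤ b := by exact_mod_cast hab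
    exact div_le_div_of_nonneg_right (by linarith) hqQ.le
  rw [max_eq_left (by omega)] at h
  have h1 : ((((Ioc a b).filter (fun n : ℕ => n ≡ r [MOD q])).card : ℤ) : ℚ) =
      (⌊((b : ℚ) - r) / q⌋ : ℚ) - (⌊((a : ℚ) - r) / q⌋ : ℚ) := by
    rw [h]
    push_cast
    ring
  have b1 := Int.floor_le (((b : ℚ) - r) / q)
  have b2 := Int.lt_floor_add_one (((b : ℚ) - r) / q)
  have a1 := Int.floor_le (((a : ℚ) - r) / q)
  have a2 := Int.lt_floor_add_one (((a : ℚ) - r) / q)
  have e1 : ((b : ℚ) - r) / q - ((a : ℚ) - r) / q = ((b : ℚ) - a) / q := by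
    rw [← sub_div]
    congr 1
    ring
  have h2 : |(((Ioc a b).filter (fun n : ℕ => n ≡ r [MOD q])).card : ℚ) - ((b : ℚ) - a) / q| ≤ 1 := by
    have h3 : (((Ioc a b).filter (fun n : ℕ => n ≡ r [MOD q])).card : ℚ) =
        (⌊((b : ℚ) - r) / q⌋ : ℚ) - (⌊((a : ℚ) - r) / q⌋ : ℚ) := by
      rw [← h1]
      push_cast
      rfl
    rw [h3, abs_le]
    constructor <;> linarith
  have h4 : ((|(((Ioc a b).filter (fun n : ℕ => n ≡ r [MOD q])).card : ℚ) - ((b : ℚ) - a) / q| : ℚ) : ℝ) ≤ ((1 : ℚ) : ℝ) := by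
    exact_mod_cast h2
  push_cast at h4
  exact h4

private theorem C1a_count (d : ℕ) [NeZero d] (M : ℕ) (g : (ZMod d)ˣ) {z : ℕ} {T : Finset ℕ} (hT : T ⊆ PP z) :
    |(((Ioc M (2 * M)).filter (fun n : ℕ => (n : ZMod d) = (g : ZMod d) ∧ ∀ p ∈ T, p ∣ n)).card : ℝ) -
      (M : ℝ) / d * ∏ p ∈ T, gd d p| ≤ 1 := by
  classical
  have hd : 0 < d := Nat.pos_of_ne_zero (NeZero.ne d)
  rw [gd_prod]
  by_cases h : ∀ p ∈ T, ¬ p ∣ d
  · rw [if_pos h]
    set P := ∏ p ∈ T, p with hP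
    have hP0 : 0 < P := Finset.prod_pos fun p hp => (C1a_prime hT p hp).pos
    have hco : P.Coprime d := by
      rw [hP]
      refine Nat.Coprime.prod_left fun p hp => ?_
      exact (Nat.Prime.coprime_iff_not_dvd (C1a_prime hT p hp)).2 (h p hp)
    obtain ⟨r, hr1, hr2⟩ := Nat.chineseRemainder hco 0 ((g : ZMod d)).val
    have e1 : (Ioc M (2 * M)).filter (fun n : ℕ => (n : ZMod d) = (g : ZMod d) ∧ ∀ p ∈ T, p ∣ n) =
        (Ioc M (2 * M)).filter (fun n : ℕ => n ≡ r [MOD P * d]) := by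
      refine Finset.filter_congr fun n _ => ?_
      rw [← Nat.modEq_and_modEq_iff_modEq_mul hco]
      have i1 : (n : ZMod d) = (g : ZMod d) ↔ n ≡ r [MOD d] := by
        have j1 : (g : ZMod d) = ((((g : ZMod d)).val : ℕ) : ZMod d) := (ZMod.natCast_zmod_val _).symm
        rw [j1, ZMod.natCast_eq_natCast_iff]
        exact ⟨fun q => q.trans hr2.symm, fun q => q.trans hr2⟩
      have i2 : (∀ p ∈ T, p ∣ n) ↔ n ≡ r [MOD P] := by
        have j2 : n ≡ r [MOD P] ↔ P ∣ n := by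
          rw [← Nat.modEq_zero_iff_dvd]
          exact ⟨fun q => q.trans hr1, fun q => q.trans hr1.symm⟩
        rw [j2]
        constructor
        · intro q
          exact Finset.prod_primes_dvd n (fun p hp => (C1a_prime hT p hp).prime) q
        · intro q p hp
          exact (Finset.dvd_prod_of_mem (fun p => p) hp).trans q
      rw [i1, i2]
      exact and_comm
    rw [e1]
    have h2 := C1a_int M (2 * M) (P * d) r (by omega) (Nat.mul_pos hP0 hd)
    have e2 : (((2 * M : ℕ) : ℝ) - M) / ((P * d : ℕ) : ℝ) = (M : ℝ) / d * (1 / ∏ p ∈ T, (p : ℝ)) := by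
      have e3 : ((P : ℕ) : ℝ) = ∏ p ∈ T, (p : ℝ) := by
        rw [hP]
        push_cast
        rfl
      rw [← e3]
      have hPR : (0 : ℝ) < P := by exact_mod_cast hP0
      have hdR : (0 : ℝ) < d := by exact_mod_cast hd
      push_cast
      field_simp
      ring
    rw [e2] at h2
    exact h2
  · rw [if_neg h]
    push Not at h
    obtain ⟨p, hp, hpd⟩ := h
    have e1 : (Ioc M (2 * M)).filter (fun n : ℕ => (n : ZMod d) = (g : ZMod d) ∧ ∀ p ∈ T, p ∣ n) = ∅ := by
      rw [Finset.filter_eq_empty_iff]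
      rintro n _ ⟨hn, hall⟩
      have hpp := C1a_prime hT p hp
      have := Nat.dvd_gcd (hall p hp) hpd
      rw [C1a_cop hn] at this
      exact hpp.one_lt.ne' (Nat.dvd_one.mp this)
    rw [e1, card_empty, Nat.cast_zero, mul_zero, sub_zero, abs_zero]
    exact zero_le_one

open Classical in
theorem class_block {K z : ℕ} {u l : Finset ℕ → ℝ} (hF : Fund 1 K z u l) (d : ℕ) [NeZero d] (M : ℕ) (g : (ZMod d)ˣ) :
    (((Ioc M (2 * M)).filter (fun n : ℕ => Rough z n ∧ n.Coprime d ∧ ucl d n = g)).card : ℝ) ≤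
      2 * ((M : ℝ) / d * VV d z) + (z : ℝ) ^ K := by
  have hd : 0 < d := Nat.pos_of_ne_zero (NeZero.ne d)
  set A : Finset ℕ := (Ioc M (2 * M)).filter (fun n : ℕ => (n : ZMod d) = (g : ZMod d)) with hA
  have hset : (Ioc M (2 * M)).filter (fun n : ℕ => Rough z n ∧ n.Coprime d ∧ ucl d n = g) =
      A.filter (fun n : ℕ => ∀ p ∈ PP z, ¬ p ∣ n) := by
    rw [hA, Finset.filter_filter]
    refine Finset.filter_congr fun n hn => ?_
    rw [mem_Ioc] at hn
    rw [C1a_iff, C1a_rough (by omega : 0 < n)]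
    exact and_comm
  have hs := sieve2 hF A (fun _ => (1 : ℝ)) (gd d) ((M : ℝ) / d) (fun _ => 1) (fun _ _ => zero_le_one)
    (adm_gd d z) (by positivity) (by
      intro T hT
      unfold TT at hT
      rw [mem_filter, mem_powerset] at hT
      have h1 := C1a_count d M g hT.1
      rw [hA, Finset.filter_filter, Finset.sum_const, nsmul_eq_mul, mul_one]
      exact h1)
  rw [Finset.sum_const, nsmul_eq_mul, mul_one, Finset.sum_const, nsmul_eq_mul, mul_one, one_mul] at hs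
  rw [hset]
  have h2 := (abs_le.1 hs).2
  have h3 := card_TT z K
  have h4 : ∏ p ∈ PP z, (1 - gd d p) = VV d z := rfl
  rw [h4] at h2
  linarith

end Pool.Agent.Lib.MP_42948a_nt.EK
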