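import Pool.Agent.Lib.MP_42948a_nt.EK.C1a
import Pool.Agent.Lib.MP_42948a_nt.TQ.A2
import Pool.Agent.Lib.MP_42948a_nt.PS.B2b

/-!
# Rough numbers of a residue class, logarithmic weights (job C1b)

`K` from `fund 1` (`TQ/A2.lean`). Let `c' = min c (ε/(4 (K + 3)))`, `z = ⌊d^c'⌋`; `Rough ⌊d^c⌋ n → Rough z n` (`z ≤ ⌊d^c⌋`), so `RW d ⌊d^c⌋ (1+ε) 2 ⊆ RW d z (1+ε) 2`. Weights `u`, `l` for `z ≥ 2` (`d` large).
`M0 = ⌊d^(1+ε)⌋` (`≥ 1`), blocks `Ioc (2^j M0) (2^(j+1) M0)`, `j < J`, `J = ⌈4 log d⌉` (`2^J M0 ≥ d^2`, as `2^(4 log d) ≥ d^(4 log 2) ≥ d^2`), cover `(M0, d^2]` and so all `n ∈ RW`: `n > d^(1+ε) ≥ M0`, `n ≤ ⌊d^2⌋`.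
In the block with `M = 2^j M0` there are at most `2 (M/d) VV + z^K ≤ 3 (M/d) VV` members of the class (`class_block`; `VV ≥ 1/(2 z^2)` (`VV_ge`), `M/d ≥ d^ε/2`, `z^(K+2) ≤ d^(ε/4)`, so `z^K ≤ (M/d) VV` for large `d`), each of
weight `1/n ≤ 1/M`; so the sum over the block is `≤ 3 VV/d`, and `VV/d ≤ 1/(φ log z)` (`VV_upper`, `PS/B2b.lean`). `log z ≥ (c'/2) log d` for large `d`. Total: `J * 3/(φ (c'/2) log d) ≤ (5 log d) (6/(c' log d))/φ = (30/c')/φ`.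
`C = 30/c'`.
-/

namespace Pool.Agent.Lib.MP_42948a_nt.EK

open Finset Pool.Agent.Lib.MP_42948a_nt.OA Pool.Agent.Lib.MP_42948a_nt.AC Pool.Agent.Lib.MP_42948a_nt.TQ
  Pool.Agent.Lib.MP_42948a_nt.PS

private theorem C1b_blocks (P : ℕ → Prop) [DecidablePred P] (f : ℕ → ℝ) (M0 : ℕ) (B : ℝ)
    (hB : ∀ j : ℕ, ∑ n ∈ (Ioc (2 ^ j * M0) (2 * (2 ^ j * M0))).filter P, f n ≤ B) (J : ℕ) :
    ∑ n ∈ (Ioc M0 (2 ^ J * M0)).filter P, f n ≤ J * B := by
  induction J with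
  | zero => simp
  | succ J ih =>
    have h1 : 2 ^ (J + 1) * M0 = 2 * (2 ^ J * M0) := by ring
    have h2 : M0 ≤ 2 ^ J * M0 := Nat.le_mul_of_pos_left _ (by positivity)
    have h3 : (Ioc M0 (2 ^ (J + 1) * M0)).filter P =
        (Ioc M0 (2 ^ J * M0)).filter P ∪ (Ioc (2 ^ J * M0) (2 * (2 ^ J * M0))).filter P := by
      rw [← Finset.filter_union, Finset.Ioc_union_Ioc_eq_Ioc h2 (by omega), h1]
    have h4 : Disjoint ((Ioc M0 (2 ^ J * M0)).filter P)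
        ((Ioc (2 ^ J * M0) (2 * (2 ^ J * M0))).filter P) := by
      rw [Finset.disjoint_left]
      intro n hn hn'
      rw [mem_filter, mem_Ioc] at hn hn'
      omega
    rw [h3, Finset.sum_union h4]
    have h5 := hB J
    push_cast
    linarith

private theorem C1b_large (a b : ℝ) (hb : 0 < b) : ∃ d0 : ℕ, ∀ d : ℕ, d0 ≤ d → a ≤ (d : ℝ) ^ b := by
  have h1 : Filter.Tendsto (fun d : ℕ => (d : ℝ) ^ b) Filter.atTop Filter.atTop :=
    (tendsto_rpow_atTop hb).comp tendsto_natCast_atTop_atTop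
  exact Filter.eventually_atTop.mp (h1.eventually_ge_atTop a)

private theorem C1b_rough {z z' n : ℕ} (h : z ≤ z') (hn : Rough z' n) : Rough z n :=
  ⟨hn.1, fun p hp hpn => lt_of_le_of_lt h (hn.2 p hp hpn)⟩

open Classical in
private theorem C1b_block {K z : ℕ} {u l : Finset ℕ → ℝ} (hF : Fund 1 K z u l) (d : ℕ) [NeZero d] (M : ℕ)
    (g : (ZMod d)ˣ) (hM : 0 < M) (h : (z : ℝ) ^ K ≤ (M : ℝ) / d * VV d z) :
    ∑ n ∈ (Ioc M (2 * M)).filter (fun n : ℕ => Rough z n ∧ n.Coprime d ∧ ucl d n = g), rw1 n ≤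
      3 * (VV d z / d) := by
  have hM0 : (0 : ℝ) < M := by exact_mod_cast hM
  have h1 := class_block hF d M g
  have h2 : ∑ n ∈ (Ioc M (2 * M)).filter (fun n : ℕ => Rough z n ∧ n.Coprime d ∧ ucl d n = g), rw1 n ≤
      (((Ioc M (2 * M)).filter (fun n : ℕ => Rough z n ∧ n.Coprime d ∧ ucl d n = g)).card : ℝ) * (1 / M) := by
    rw [← nsmul_eq_mul]
    refine Finset.sum_le_card_nsmul _ _ _ fun n hn => ?_
    rw [mem_filter, mem_Ioc] at hn
    unfold rw1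
    refine one_div_le_one_div_of_le hM0 ?_
    exact_mod_cast hn.1.1.le
  refine h2.trans ?_
  have h3 : (((Ioc M (2 * M)).filter (fun n : ℕ => Rough z n ∧ n.Coprime d ∧ ucl d n = g)).card : ℝ) ≤
      3 * ((M : ℝ) / d * VV d z) := by linarith
  refine (mul_le_mul_of_nonneg_right h3 (by positivity)).trans (le_of_eq ?_)
  have hd0 : (d : ℝ) ≠ 0 := by exact_mod_cast NeZero.ne d
  field_simp

theorem class_sum (c ε : ℝ) (hc : 0 < c) (hε : 0 < ε) (hε1 : ε ≤ 1) : ∃ C : ℝ, 0 < C ∧ ∃ d0 : ℕ, ∀ d : ℕ, d0 ≤ d → ∀ [NeZero d],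
    ∀ g : (ZMod d)ˣ, CF d (RW d ⌊(d : ℝ) ^ c⌋₊ (1 + ε) 2) rw1 g ≤ C / (Fintype.card (ZMod d)ˣ : ℝ) := by
  classical
  obtain ⟨K, hK⟩ := fund 1 one_pos le_rfl
  have hK0 : (0 : ℝ) ≤ K := Nat.cast_nonneg K
  obtain ⟨c', hc'⟩ : ∃ c' : ℝ, c' = min c (ε / (4 * (K + 3))) := ⟨_, rfl⟩
  have hc0 : 0 < c' := by
    rw [hc']
    exact lt_min hc (by positivity)
  have hcc : c' ≤ c := by
    rw [hc']
    exact min_le_left _ _
  have hcK : c' * (K + 2) ≤ ε / 4 := by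
    have h1 : c' ≤ ε / (4 * (K + 3)) := by
      rw [hc']
      exact min_le_right _ _
    rw [le_div_iff₀ (by positivity)] at h1
    have h2 : 0 ≤ c' * 1 := by linarith
    nlinarith
  refine ⟨30 / c', by positivity, ?_⟩
  obtain ⟨d1, hd1⟩ := C1b_large 2 (c' / 2) (by positivity)
  obtain ⟨d2, hd2⟩ := C1b_large 4 (3 * ε / 4) (by positivity)
  refine ⟨max (max d1 d2) 3, fun d hd _ g => ?_⟩
  have h1 := hd1 d ((le_max_left _ _).trans ((le_max_left _ _).trans hd))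
  have h2 := hd2 d ((le_max_right _ _).trans ((le_max_left _ _).trans hd))
  have h3 : (3 : ℝ) ≤ d := by exact_mod_cast (le_max_right _ _).trans hd
  have hx0 : (0 : ℝ) < d := by linarith
  have hx1 : (1 : ℝ) ≤ d := by linarith
  have hφ : (0 : ℝ) < (Fintype.card (ZMod d)ˣ : ℝ) := by exact_mod_cast Fintype.card_pos
  -- logarithm
  have hlog : 1 ≤ Real.log d := by
    rw [Real.le_log_iff_exp_le hx0]
    have := Real.exp_one_lt_d9
    linarith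
  -- z
  obtain ⟨z, hz⟩ : ∃ z : ℕ, z = ⌊(d : ℝ) ^ c'⌋₊ := ⟨_, rfl⟩
  have hzle : (z : ℝ) ≤ (d : ℝ) ^ c' := by
    rw [hz]
    exact Nat.floor_le (by positivity)
  have hzge : (d : ℝ) ^ (c' / 2) ≤ z := by
    have e1 : (d : ℝ) ^ c' < z + 1 := by
      rw [hz]
      exact Nat.lt_floor_add_one _
    have e2 : (d : ℝ) ^ c' = (d : ℝ) ^ (c' / 2) * (d : ℝ) ^ (c' / 2) := by
      rw [← Real.rpow_add hx0]
      congr 1
      ring
    nlinarith
  have hz2 : 2 ≤ z := by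
    have : (2 : ℝ) ≤ z := h1.trans hzge
    exact_mod_cast this
  have hz0 : (0 : ℝ) < z := by positivity
  have hzlog : c' / 2 * Real.log d ≤ Real.log z := by
    rw [← Real.log_rpow hx0]
    exact Real.log_le_log (by positivity) hzge
  have hzK : (z : ℝ) ^ (K + 2) ≤ (d : ℝ) ^ (ε / 4) := by
    calc (z : ℝ) ^ (K + 2) ≤ ((d : ℝ) ^ c') ^ (K + 2) := pow_le_pow_left₀ hz0.le hzle _
      _ = (d : ℝ) ^ (c' * (K + 2)) := by
        rw [← Real.rpow_natCast, ← Real.rpow_mul hx0.le]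
        push_cast
        rfl
      _ ≤ (d : ℝ) ^ (ε / 4) := Real.rpow_le_rpow_of_exponent_le hx1 hcK
  have hzK2 : 4 * (z : ℝ) ^ (K + 2) ≤ (d : ℝ) ^ ε := by
    have e1 : (d : ℝ) ^ ε = (d : ℝ) ^ (3 * ε / 4) * (d : ℝ) ^ (ε / 4) := by
      rw [← Real.rpow_add hx0]
      congr 1
      ring
    rw [e1]
    exact mul_le_mul h2 hzK (by positivity) (by positivity)
  obtain ⟨u, l, hF⟩ := hK z hz2
  -- M0
  obtain ⟨M0, hM0⟩ : ∃ M0 : ℕ, M0 = ⌊(d : ℝ) ^ (1 + ε)⌋₊ := ⟨_, rfl⟩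
  have hM0le : (M0 : ℝ) ≤ (d : ℝ) ^ (1 + ε) := by
    rw [hM0]
    exact Nat.floor_le (by positivity)
  have hdε : 1 ≤ (d : ℝ) ^ ε := Real.one_le_rpow hx1 hε.le
  have hM0ge : (d : ℝ) ^ ε / 2 ≤ (M0 : ℝ) / d := by
    have e1 : (d : ℝ) ^ (1 + ε) < M0 + 1 := by
      rw [hM0]
      exact Nat.lt_floor_add_one _
    have e2 : (d : ℝ) ^ (1 + ε) = d * (d : ℝ) ^ ε := by
      rw [Real.rpow_add hx0, Real.rpow_one]
    rw [le_div_iff₀ hx0]
    nlinarith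
  have hM0pos : 0 < M0 := by
    have e1 : (0 : ℝ) < (M0 : ℝ) / d := lt_of_lt_of_le (by positivity) hM0ge
    have e2 : (0 : ℝ) < M0 := by
      by_contra h
      have h5 : (M0 : ℝ) / d ≤ 0 := div_nonpos_of_nonpos_of_nonneg (not_lt.1 h) hx0.le
      linarith
    exact_mod_cast e2
  have hVV := VV_ge d z hz2
  have hVV0 := VV_pos d z
  have hblock : ∀ j : ℕ, (z : ℝ) ^ K ≤ ((2 ^ j * M0 : ℕ) : ℝ) / d * VV d z := by
    intro j
    have e1 : (M0 : ℝ) ≤ ((2 ^ j * M0 : ℕ) : ℝ) := by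
      exact_mod_cast Nat.le_mul_of_pos_left _ (by positivity)
    have e2 : (d : ℝ) ^ ε / 2 ≤ ((2 ^ j * M0 : ℕ) : ℝ) / d :=
      hM0ge.trans (div_le_div_of_nonneg_right e1 hx0.le)
    have e3 : (d : ℝ) ^ ε / 2 * (1 / (2 * (z : ℝ) ^ 2)) ≤ ((2 ^ j * M0 : ℕ) : ℝ) / d * VV d z :=
      mul_le_mul e2 hVV (by positivity) (le_trans (by positivity) e2)
    refine le_trans ?_ e3
    rw [div_mul_div_comm, mul_one, le_div_iff₀ (by positivity)]
    have e4 : (z : ℝ) ^ K * (2 * (2 * (z : ℝ) ^ 2)) = 4 * (z : ℝ) ^ (K + 2) := by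
      rw [pow_add]
      ring
    rw [e4]
    exact hzK2
  obtain ⟨J, hJ⟩ : ∃ J : ℕ, J = ⌈4 * Real.log d⌉₊ := ⟨_, rfl⟩
  have hJle : (J : ℝ) ≤ 5 * Real.log d := by
    have e1 : (J : ℝ) < 4 * Real.log d + 1 := by
      rw [hJ]
      exact Nat.ceil_lt_add_one (by positivity)
    linarith
  have hJge : 4 * Real.log d ≤ J := by
    rw [hJ]
    exact Nat.le_ceil _
  have hpow : (d : ℝ) ^ 2 ≤ 2 ^ J := by
    rw [← Real.log_le_log_iff (by positivity) (by positivity), Real.log_pow, Real.log_pow]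
    have e1 := Real.log_two_gt_d9
    have e2 : (1 : ℝ) / 2 * (4 * Real.log d) ≤ Real.log 2 * J :=
      mul_le_mul (by linarith) hJge (by positivity) (by linarith)
    push_cast
    linarith
  have hsum := C1b_blocks (fun n : ℕ => Rough z n ∧ n.Coprime d ∧ ucl d n = g) rw1 M0 (3 * (VV d z / d))
    (fun j => C1b_block hF d (2 ^ j * M0) g (by positivity) (hblock j)) J
  have hCF : CF d (RW d ⌊(d : ℝ) ^ c⌋₊ (1 + ε) 2) rw1 g ≤ J * (3 * (VV d z / d)) := by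
    refine le_trans ?_ hsum
    unfold CF
    refine Finset.sum_le_sum_of_subset_of_nonneg ?_ ?_
    · intro n hn
      rw [mem_filter] at hn
      obtain ⟨hn1, hn2⟩ := hn
      unfold RW at hn1
      rw [mem_filter, mem_Icc] at hn1
      obtain ⟨⟨_, hn3⟩, hn4, hn5, hn6⟩ := hn1
      rw [mem_filter, mem_Ioc]
      refine ⟨⟨?_, ?_⟩, C1b_rough ?_ hn5, hn6, hn2⟩
      · exact_mod_cast lt_of_le_of_lt hM0le hn4
      · have e1 : (n : ℝ) ≤ (d : ℝ) ^ (2 : ℝ) := by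
          refine le_trans ?_ (Nat.floor_le (by positivity))
          exact_mod_cast hn3
        rw [Real.rpow_two] at e1
        have e2 : (1 : ℝ) ≤ M0 := by exact_mod_cast hM0pos
        have e3 : (n : ℝ) ≤ 2 ^ J * M0 := by
          have e4 : (2 : ℝ) ^ J * 1 ≤ 2 ^ J * M0 := mul_le_mul_of_nonneg_left e2 (by positivity)
          linarith
        exact_mod_cast e3
      · rw [hz]
        exact Nat.floor_le_floor (Real.rpow_le_rpow_of_exponent_le hx1 hcc)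
    · intro n _ _
      unfold rw1
      positivity
  refine hCF.trans ?_
  rw [le_div_iff₀ hφ]
  have hup := VV_upper d z hz2
  have hlogz : 0 < Real.log z := by
    refine lt_of_lt_of_le ?_ hzlog
    positivity
  have e1 : (J : ℝ) * (3 * (VV d z / d)) * (Fintype.card (ZMod d)ˣ : ℝ) =
      3 * J * (VV d z * ((Fintype.card (ZMod d)ˣ : ℝ) / d)) := by ring
  rw [e1]
  have e2 : 3 * (J : ℝ) * (VV d z * ((Fintype.card (ZMod d)ˣ : ℝ) / d)) ≤ 3 * J * (1 / Real.log z) :=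
    mul_le_mul_of_nonneg_left hup (by positivity)
  refine e2.trans ?_
  rw [mul_one_div, div_le_div_iff₀ hlogz hc0]
  have e3 : c' * (3 * J) ≤ c' * (15 * Real.log d) := mul_le_mul_of_nonneg_left (by linarith) hc0.le
  linarith

end Pool.Agent.Lib.MP_42948a_nt.EK
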