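import Pool.Agent.Lib.MP_42948a_nt.PS.Defs

/-!
# Exactly `K` primes: definitions

`OA`, `AC`, `TQ`, `PS` are the libraries of the earlier theorems on this problem. `G = (ZMod d)ˣ`, `φ = Fintype.card G`,
`SF f χ = ∑_c f c * conj (ev χ c)`, `ev χ c = χ (c : ZMod d)`, `ucl d n` = the class of `n` (for `n` coprime to `d`).
-/

namespace Pool.Agent.Lib.MP_42948a_nt.EK

open Finset Pool.Agent.Lib.MP_42948a_nt.OA Pool.Agent.Lib.MP_42948a_nt.AC Pool.Agent.Lib.MP_42948a_nt.TQ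
  Pool.Agent.Lib.MP_42948a_nt.PS

/-- the function on the classes given by the weights `a n`, `n ∈ R` -/
noncomputable def CF (d : ℕ) (R : Finset ℕ) (a : ℕ → ℝ) (g : (ZMod d)ˣ) : ℝ := ∑ n ∈ R.filter (fun n => ucl d n = g), a n

/-- the weight `1 / n` -/
noncomputable def rw1 (n : ℕ) : ℝ := 1 / (n : ℝ)

open Classical in
/-- the numbers `n = p q` coprime to `d`, `p < q` primes, `d^δ < p`, in the window `(d^v, d^u]` -/
noncomputable def E2 (d : ℕ) (δ v u : ℝ) : Finset ℕ :=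
  (Icc 1 ⌊(d : ℝ) ^ u⌋₊).filter (fun n : ℕ => (d : ℝ) ^ v < n ∧ n.Coprime d ∧
    ∃ p q : ℕ, p.Prime ∧ q.Prime ∧ (d : ℝ) ^ δ < p ∧ p < q ∧ n = p * q)

open Classical in
/-- the rough numbers coprime to `d` in the window `(d^v, d^u]` -/
noncomputable def RW (d z : ℕ) (v u : ℝ) : Finset ℕ :=
  (Icc 1 ⌊(d : ℝ) ^ u⌋₊).filter (fun n : ℕ => (d : ℝ) ^ v < n ∧ Rough z n ∧ n.Coprime d)

open Classical in
/-- the primes not dividing `d` in the window `(d^v, d^u]` -/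
noncomputable def PW (d : ℕ) (v u : ℝ) : Finset ℕ :=
  (Icc 1 ⌊(d : ℝ) ^ u⌋₊).filter (fun p : ℕ => (d : ℝ) ^ v < p ∧ p.Prime ∧ ¬ p ∣ d)

/-- The density statement at the scale `u₀`: there is a probability density `f` supported on the classes of the numbers `p q` of size about `d^u₀`, bounded by a
function `Φ` of total mass `≤ 1 / α` all whose nonprincipal Fourier coefficients are small. -/
def Dens (u₀ α : ℝ) : Prop :=
  ∀ ε : ℝ, 0 < ε → ε ≤ 1 / 1000 → ∀ η : ℝ, 0 < η → η ≤ ε →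
    ∃ c : ℝ, 0 < c ∧ ∃ m : ℝ, 0 < m ∧ ∃ d₀ : ℕ, ∀ d : ℕ, d₀ ≤ d → ∀ [NeZero d],
      ∃ f Φ : (ZMod d)ˣ → ℝ, (∀ g, 0 ≤ f g) ∧ (∀ g, f g ≤ Φ g) ∧ ∑ g, f g = 1 ∧ ∑ g, Φ g ≤ 1 / α ∧
        (∀ χ : DirichletCharacter ℂ d, χ ≠ 1 → ‖SF Φ χ‖ ≤ (d : ℝ) ^ (-c)) ∧
        ∀ g, f g ≤ 1 / m * CF d (E2 d (1 / 200) (u₀ + ε - η) (u₀ + ε)) rw1 g

/-! ## Convolution and smoothing on `(ZMod d)ˣ` -/

/-- convolution -/
noncomputable def cv {d : ℕ} [NeZero d] (f g : (ZMod d)ˣ → ℝ) (x : (ZMod d)ˣ) : ℝ := ∑ y, f y * g (y⁻¹ * x)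

/-- the Fejer kernel of a finite set `S` of characters -/
noncomputable def bt {d : ℕ} [NeZero d] (S : Finset (DirichletCharacter ℂ d)) (g : (ZMod d)ˣ) : ℝ :=
  ‖∑ ψ ∈ S, ev ψ g‖ ^ 2 / ((S.card : ℝ) * (Fintype.card (ZMod d)ˣ : ℝ))

open Classical in
/-- the Fourier transform of the Fejer kernel -/
noncomputable def bh {X : Type*} [CommGroup X] (S : Finset X) (χ : X) : ℝ :=
  ((S.filter (fun ψ => χ * ψ ∈ S)).card : ℝ) / (S.card : ℝ)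

/-- smoothing -/
noncomputable def sm {d : ℕ} [NeZero d] (S : Finset (DirichletCharacter ℂ d)) (f : (ZMod d)ˣ → ℝ) : (ZMod d)ˣ → ℝ := cv f (bt S)

end Pool.Agent.Lib.MP_42948a_nt.EK
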