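import Pool.Agent.Lib.MP_42948a_nt.EK.C2a
import Pool.Agent.Lib.MP_42948a_nt.PS.B1c
import Pool.Agent.Lib.MP_42948a_nt.PS.B6c

/-!
# The tiny primes (job T1)

`tt d α g = CF d U rw1 g / Wt U` with `U = primesOff d ⌊d^α⌋ ⌊d^(2α)⌋`. `Wt U = ∑ u ∈ U, 1/u`, `Pa U χ = (∑ u ∈ U, (1/u) χ u)/Wt U`. Members of `U` are primes not dividing `d`, so coprime to `d`.
`tt_sum`: `sum_CF`, `Wt U > 0`. `tt_SF`: `SF (tt d α) χ = (1/Wt U) ∑_{u ∈ U} (1/u) conj (χ u) = conj (Pa U χ)` (`ev χ (ucl d u) = χ (u : ZMod d)` by `ucl_val`; the weights are real), so the norms agree.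
`tt_facts`: `Wt_lower` (`PS/B1c.lean`) gives `Wt U ≥ 1/20 > 0` for large `d`.
`tt_few`: from `few_large` (`PS/B6c.lean`) with `Ξ = {χ : v ≤ ‖SF (tt d α) χ‖}`.
-/

namespace Pool.Agent.Lib.MP_42948a_nt.EK

open Finset Pool.Agent.Lib.MP_42948a_nt.OA Pool.Agent.Lib.MP_42948a_nt.AC Pool.Agent.Lib.MP_42948a_nt.TQ
  Pool.Agent.Lib.MP_42948a_nt.PS

/-- the distribution of the primes in `(d^α, d^(2α)]` in the residue classes -/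
noncomputable def tt (d : ℕ) (α : ℝ) (g : (ZMod d)ˣ) : ℝ :=
  CF d (primesOff d ⌊(d : ℝ) ^ α⌋₊ ⌊(d : ℝ) ^ (2 * α)⌋₊) rw1 g / Wt (primesOff d ⌊(d : ℝ) ^ α⌋₊ ⌊(d : ℝ) ^ (2 * α)⌋₊)

private theorem T1_coprime {d a b n : ℕ} (h : n ∈ primesOff d a b) : n.Coprime d := by
  unfold primesOff at h
  rw [mem_filter] at h
  exact (Nat.Prime.coprime_iff_not_dvd h.2.1).2 h.2.2.2

private theorem T1_norm (d : ℕ) [NeZero d] (α : ℝ) (χ : DirichletCharacter ℂ d) :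
    ‖SF (tt d α) χ‖ = ‖Pa (primesOff d ⌊(d : ℝ) ^ α⌋₊ ⌊(d : ℝ) ^ (2 * α)⌋₊) χ‖ := by
  set U := primesOff d ⌊(d : ℝ) ^ α⌋₊ ⌊(d : ℝ) ^ (2 * α)⌋₊ with hU
  have h1 : SF (tt d α) χ = SF (CF d U rw1) χ / ((Wt U : ℝ) : ℂ) := by
    unfold SF tt
    rw [← hU, Finset.sum_div]
    refine Finset.sum_congr rfl fun c _ => ?_
    push_cast
    ring
  have h2 := SF_CF d U (fun n hn => T1_coprime hn) χ
  have h3 : SF (tt d α) χ = (starRingEnd ℂ) (Pa U χ) := by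
    rw [h1, h2]
    unfold Pa
    rw [map_div₀, map_sum, Complex.conj_ofReal]
    congr 1
    refine Finset.sum_congr rfl fun n _ => ?_
    rw [map_mul, Complex.conj_ofReal]
    rfl
  rw [h3, Complex.norm_conj]

theorem tt_facts (α : ℝ) (hα : 0 < α) : ∃ d0 : ℕ, ∀ d : ℕ, d0 ≤ d → ∀ [NeZero d],
    (∀ g, 0 ≤ tt d α g) ∧ ∑ g, tt d α g = 1 ∧
      (∀ χ : DirichletCharacter ℂ d, ‖SF (tt d α) χ‖ = ‖Pa (primesOff d ⌊(d : ℝ) ^ α⌋₊ ⌊(d : ℝ) ^ (2 * α)⌋₊) χ‖) ∧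
      ∀ g, tt d α g ≠ 0 → ∃ p : ℕ, p.Prime ∧ (d : ℝ) ^ α < p ∧ (p : ℝ) ≤ (d : ℝ) ^ (2 * α) ∧ ¬ p ∣ d ∧ ucl d p = g := by
  obtain ⟨d0, h0⟩ := Wt_lower α hα
  refine ⟨d0, fun d hd hne => ?_⟩
  have hW := h0 d hd
  set U := primesOff d ⌊(d : ℝ) ^ α⌋₊ ⌊(d : ℝ) ^ (2 * α)⌋₊ with hU
  have hW0 : 0 < Wt U := by linarith
  have htt : ∀ g, tt d α g = CF d U rw1 g / Wt U := fun g => rfl
  refine ⟨fun g => ?_, ?_, fun χ => T1_norm d α χ, fun g hg => ?_⟩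
  · rw [htt]
    exact div_nonneg (CF_nonneg d U g) hW0.le
  · have h1 : ∑ g, tt d α g = (∑ g, CF d U rw1 g) / Wt U := by
      rw [Finset.sum_div]
      exact Finset.sum_congr rfl fun g _ => htt g
    rw [h1, sum_CF]
    exact div_self hW0.ne'
  · have h1 : CF d U rw1 g ≠ 0 := by
      intro h2
      apply hg
      rw [htt, h2, zero_div]
    obtain ⟨p, hp, hpg⟩ := CF_exists d U g h1
    rw [hU] at hp
    unfold primesOff at hp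
    rw [mem_filter, mem_Icc] at hp
    obtain ⟨⟨hp1, hp2⟩, hp3, hp4, hp5⟩ := hp
    have e1 : (0 : ℝ) ≤ (d : ℝ) ^ α := Real.rpow_nonneg (Nat.cast_nonneg d) _
    have e2 : (0 : ℝ) ≤ (d : ℝ) ^ (2 * α) := Real.rpow_nonneg (Nat.cast_nonneg d) _
    exact ⟨p, hp3, (Nat.floor_lt e1).1 hp4, (Nat.le_floor_iff e2).1 hp2, hp5, hpg⟩

open Classical in
theorem tt_few (α : ℝ) (hα : 0 < α) (hα1 : α ≤ 1) (k : ℕ) (hk : 1 / 2 + α ≤ k * α) :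
    ∃ C : ℝ, 0 < C ∧ ∃ d0 : ℕ, ∀ d : ℕ, d0 ≤ d → ∀ [NeZero d], ∀ v : ℝ, 0 < v → 2 * C < v ^ (2 * k) * (d : ℝ) ^ (α / 8) →
      (((univ : Finset (DirichletCharacter ℂ d)).filter (fun χ => v ≤ ‖SF (tt d α) χ‖)).card : ℝ) * v ^ (2 * k) ≤ C := by
  obtain ⟨C, hC, d0, h0⟩ := few_large α hα hα1 k hk
  refine ⟨C, hC, d0, fun d hd hne v hv hv2 => ?_⟩
  refine h0 d hd v hv hv2 _ fun χ hχ => ?_
  rw [mem_filter] at hχ
  rw [← T1_norm]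
  exact hχ.2

end Pool.Agent.Lib.MP_42948a_nt.EK
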