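import Pool.Agent.Lib.MP_42948a_nt.EK.A1
import Pool.Agent.Lib.MP_42948a_nt.EK.T1

/-!
# The kernel for the tiny primes (job K1)

Let `k = ⌈1/α⌉ + 1`, so `1/2 + α ≤ k α` and `1 ≤ k`; `C` from `tt_few α k` (`T1.lean`). For large `d`: `2 C < τ^(2k) d^(α/8)`, so the number of `χ` with `τ ≤ ‖SF (tt d α) χ‖` is `≤ M := ⌈C/τ^(2k)⌉`. `B` from `ball M τ`
(`A1.lean`), applied with `X = DirichletCharacter ℂ d`, `Ξ` = the set of these characters (a filter of `univ`; classical decidability).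
-/

namespace Pool.Agent.Lib.MP_42948a_nt.EK

open Finset Pool.Agent.Lib.MP_42948a_nt.OA Pool.Agent.Lib.MP_42948a_nt.AC Pool.Agent.Lib.MP_42948a_nt.TQ
  Pool.Agent.Lib.MP_42948a_nt.PS

theorem kernel (α τ : ℝ) (hα : 0 < α) (hα1 : α ≤ 1) (hτ : 0 < τ) : ∃ B d0 : ℕ, ∀ d : ℕ, d0 ≤ d → ∀ [NeZero d],
    ∃ S : Finset (DirichletCharacter ℂ d), S.Nonempty ∧ S.card ≤ B ∧
      ∀ χ : DirichletCharacter ℂ d, τ ≤ ‖SF (tt d α) χ‖ → 1 - τ ≤ bh S χ := by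
  classical
  obtain ⟨k, hk⟩ : ∃ k : ℕ, 1 / 2 + α ≤ k * α := by
    refine ⟨⌈1 / α⌉₊ + 1, ?_⟩
    have h1 : 1 / α ≤ (⌈1 / α⌉₊ : ℝ) := Nat.le_ceil _
    have h2 : 1 / α * α ≤ (⌈1 / α⌉₊ : ℝ) * α := mul_le_mul_of_nonneg_right h1 hα.le
    rw [one_div_mul_cancel hα.ne'] at h2
    push_cast
    nlinarith
  obtain ⟨C, hC, d1, h1⟩ := tt_few α hα hα1 k hk
  have hpos : 0 < τ ^ (2 * k) := pow_pos hτ _
  obtain ⟨B, hB⟩ := ball ⌈C / τ ^ (2 * k)⌉₊ τ hτ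
  have ht : Filter.Tendsto (fun d : ℕ => τ ^ (2 * k) * (d : ℝ) ^ (α / 8)) Filter.atTop Filter.atTop := by
    refine Filter.Tendsto.const_mul_atTop hpos ?_
    exact (tendsto_rpow_atTop (by positivity)).comp tendsto_natCast_atTop_atTop
  obtain ⟨d2, h2⟩ := Filter.eventually_atTop.1 (ht.eventually_gt_atTop (2 * C))
  refine ⟨B, max d1 d2, fun d hd _ => ?_⟩
  have h3 := h1 d (le_trans (le_max_left _ _) hd) τ hτ (h2 d (le_trans (le_max_right _ _) hd))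
  obtain ⟨S, hS, hSB, hS1⟩ := hB (DirichletCharacter ℂ d)
    ((univ : Finset (DirichletCharacter ℂ d)).filter (fun χ => τ ≤ ‖SF (tt d α) χ‖)) (by
      have h4 : (((univ : Finset (DirichletCharacter ℂ d)).filter
          (fun χ => τ ≤ ‖SF (tt d α) χ‖)).card : ℝ) ≤ C / τ ^ (2 * k) := by
        rw [le_div_iff₀ hpos]
        simpa only using h3
      exact_mod_cast h4.trans (Nat.le_ceil _))
  exact ⟨S, hS, hSB, fun χ hχ => hS1 χ (by simp [hχ])⟩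

end Pool.Agent.Lib.MP_42948a_nt.EK
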