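import Pool.Agent.Lib.MP_42948a_nt.EK.A4

/-!
# Transference with one tiny prime (job R1)

`N = Fintype.card (ZMod d)ˣ`. `T = cv (cv (cv Q t) F) F'`, `Tβ = cv (cv (cv Q t) (sm S F)) (sm S F')`.
`transfer_one`: `diff_le` (`A3.lean`): `Tβ a - T a ≤ (1/N) ∑_χ ‖SF Tβ χ - SF T χ‖`; by `SF_cv`, `SF_sm` the term is `‖SF Q χ‖ ‖SF t χ‖ ‖SF F χ‖ ‖SF F' χ‖ (1 - b^2)`, `b = bh S χ ∈ [0, 1]` (`bh_nonneg`, `bh_le_one`).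
`‖SF Q χ‖ ≤ 1` (`norm_SF_le`, `∑ Q = 1`). If `τ ≤ ‖SF t χ‖` then `b ≥ 1 - τ`, `1 - b^2 ≤ 2 (1 - b) ≤ 2 τ` and `‖SF t χ‖ ≤ 1`; otherwise `‖SF t χ‖ < τ`, `1 - b^2 ≤ 1`. So the term is `≤ 2 τ ‖SF F χ‖ ‖SF F' χ‖`, and
`∑_χ ‖SF F χ‖ ‖SF F' χ‖ ≤ √(∑ ‖SF F χ‖^2) √(∑ ‖SF F' χ‖^2) ≤ C0 * C0` by Cauchy-Schwarz and `l2_of_le` (`0 ≤ F ≤ C0/N`).
`transfer`: sum `transfer_one` over `i ∈ I` (`T_i a = 0`): `∑_i cv (cv (cv Q t) (sm S (F i))) (sm S (F' i)) a ≤ #I * 2 τ C0^2/N`. By `cv_assoc` the left side is `∑_w cv Q t w * ∑_i cv (sm S (F i)) (sm S (F' i)) (w⁻¹ a)`,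
where `cv Q t` is a probability distribution (`cv_nonneg`, `sum_cv`), so for some `w` with `cv Q t w > 0` the inner sum is `≤ #I * 2 τ C0^2/N` (otherwise the average would be larger); all its terms are `≥ 0`.
-/

namespace Pool.Agent.Lib.MP_42948a_nt.EK

open Finset Pool.Agent.Lib.MP_42948a_nt.OA Pool.Agent.Lib.MP_42948a_nt.AC Pool.Agent.Lib.MP_42948a_nt.TQ
  Pool.Agent.Lib.MP_42948a_nt.PS

variable {d : ℕ} [NeZero d]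

private theorem R1_term (S : Finset (DirichletCharacter ℂ d)) (hS : S.Nonempty) (Q t F F' : (ZMod d)ˣ → ℝ) (τ : ℝ) (hτ : 0 ≤ τ)
    (hQ : ∀ x, 0 ≤ Q x) (hQ1 : ∑ x, Q x = 1) (ht : ∀ x, 0 ≤ t x) (ht1 : ∑ x, t x = 1)
    (hSt : ∀ χ : DirichletCharacter ℂ d, τ ≤ ‖SF t χ‖ → 1 - τ ≤ bh S χ) (χ : DirichletCharacter ℂ d) :
    ‖SF (cv (cv (cv Q t) (sm S F)) (sm S F')) χ - SF (cv (cv (cv Q t) F) F') χ‖ ≤ 2 * τ * (‖SF F χ‖ * ‖SF F' χ‖) := by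
  have hb0 : 0 ≤ bh S χ := bh_nonneg S χ
  have hb1 : bh S χ ≤ 1 := bh_le_one S χ
  have e1 : SF (cv (cv (cv Q t) (sm S F)) (sm S F')) χ - SF (cv (cv (cv Q t) F) F') χ =
      SF Q χ * SF t χ * (SF F χ * SF F' χ) * (((bh S χ ^ 2 - 1 : ℝ)) : ℂ) := by
    simp only [SF_cv, SF_sm S hS]
    push_cast
    ring
  rw [e1, norm_mul, norm_mul, norm_mul, norm_mul, Complex.norm_real, Real.norm_eq_abs]
  have hb2 : |bh S χ ^ 2 - 1| = 1 - bh S χ ^ 2 := by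
    rw [abs_of_nonpos (by nlinarith)]
    ring
  rw [hb2]
  have hQn : ‖SF Q χ‖ ≤ 1 := by
    have := norm_SF_le Q hQ χ
    rwa [hQ1] at this
  have htn : ‖SF t χ‖ ≤ 1 := by
    have := norm_SF_le t ht χ
    rwa [ht1] at this
  have hkey : ‖SF Q χ‖ * ‖SF t χ‖ * (1 - bh S χ ^ 2) ≤ 2 * τ := by
    have h0 : 0 ≤ 1 - bh S χ ^ 2 := by nlinarith
    have h1 : ‖SF Q χ‖ * ‖SF t χ‖ ≤ ‖SF t χ‖ := by
      have := mul_le_mul_of_nonneg_right hQn (norm_nonneg (SF t χ))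
      rwa [one_mul] at this
    have h2 : ‖SF Q χ‖ * ‖SF t χ‖ * (1 - bh S χ ^ 2) ≤ ‖SF t χ‖ * (1 - bh S χ ^ 2) := mul_le_mul_of_nonneg_right h1 h0
    refine h2.trans ?_
    rcases le_or_gt τ ‖SF t χ‖ with h | h
    · have hb := hSt χ h
      have h3 : 1 - bh S χ ^ 2 ≤ 2 * τ := by nlinarith
      calc ‖SF t χ‖ * (1 - bh S χ ^ 2) ≤ 1 * (1 - bh S χ ^ 2) := mul_le_mul_of_nonneg_right htn h0
        _ ≤ 2 * τ := by rw [one_mul]; exact h3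
    · have h3 : 1 - bh S χ ^ 2 ≤ 1 := by nlinarith
      calc ‖SF t χ‖ * (1 - bh S χ ^ 2) ≤ ‖SF t χ‖ * 1 := mul_le_mul_of_nonneg_left h3 (norm_nonneg _)
        _ ≤ 2 * τ := by rw [mul_one]; linarith
  have hFF : 0 ≤ ‖SF F χ‖ * ‖SF F' χ‖ := mul_nonneg (norm_nonneg _) (norm_nonneg _)
  calc ‖SF Q χ‖ * ‖SF t χ‖ * (‖SF F χ‖ * ‖SF F' χ‖) * (1 - bh S χ ^ 2)
      = ‖SF Q χ‖ * ‖SF t χ‖ * (1 - bh S χ ^ 2) * (‖SF F χ‖ * ‖SF F' χ‖) := by ring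
    _ ≤ 2 * τ * (‖SF F χ‖ * ‖SF F' χ‖) := mul_le_mul_of_nonneg_right hkey hFF

theorem transfer_one (S : Finset (DirichletCharacter ℂ d)) (hS : S.Nonempty) (Q t F F' : (ZMod d)ˣ → ℝ) (τ C0 : ℝ) (hτ : 0 ≤ τ) (hC0 : 0 ≤ C0)
    (hQ : ∀ x, 0 ≤ Q x) (hQ1 : ∑ x, Q x = 1) (ht : ∀ x, 0 ≤ t x) (ht1 : ∑ x, t x = 1)
    (hSt : ∀ χ : DirichletCharacter ℂ d, τ ≤ ‖SF t χ‖ → 1 - τ ≤ bh S χ)
    (hF : ∀ x, 0 ≤ F x) (hF' : ∀ x, 0 ≤ F' x) (hFC : ∀ x, F x ≤ C0 / (Fintype.card (ZMod d)ˣ : ℝ))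
    (hFC' : ∀ x, F' x ≤ C0 / (Fintype.card (ZMod d)ˣ : ℝ)) (a : (ZMod d)ˣ) :
    cv (cv (cv Q t) (sm S F)) (sm S F') a - cv (cv (cv Q t) F) F' a ≤ 2 * τ * C0 ^ 2 / (Fintype.card (ZMod d)ˣ : ℝ) := by
  have hN : (0 : ℝ) < (Fintype.card (ZMod d)ˣ : ℝ) := by
    exact_mod_cast Fintype.card_pos
  have h1 := diff_le (cv (cv (cv Q t) (sm S F)) (sm S F')) (cv (cv (cv Q t) F) F') a
  have h2 : ∑ χ : DirichletCharacter ℂ d, ‖SF (cv (cv (cv Q t) (sm S F)) (sm S F')) χ - SF (cv (cv (cv Q t) F) F') χ‖ ≤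
      ∑ χ : DirichletCharacter ℂ d, 2 * τ * (‖SF F χ‖ * ‖SF F' χ‖) :=
    Finset.sum_le_sum fun χ _ => R1_term S hS Q t F F' τ hτ hQ hQ1 ht ht1 hSt χ
  rw [← Finset.mul_sum] at h2
  have h3 : ∑ χ : DirichletCharacter ℂ d, ‖SF F χ‖ * ‖SF F' χ‖ ≤ C0 ^ 2 := by
    have hA := l2_of_le F C0 hF hFC
    have hB := l2_of_le F' C0 hF' hFC'
    have hpt : ∀ χ : DirichletCharacter ℂ d, ‖SF F χ‖ * ‖SF F' χ‖ ≤ (‖SF F χ‖ ^ 2 + ‖SF F' χ‖ ^ 2) / 2 := fun χ => by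
      nlinarith [sq_nonneg (‖SF F χ‖ - ‖SF F' χ‖)]
    calc ∑ χ : DirichletCharacter ℂ d, ‖SF F χ‖ * ‖SF F' χ‖
        ≤ ∑ χ : DirichletCharacter ℂ d, (‖SF F χ‖ ^ 2 + ‖SF F' χ‖ ^ 2) / 2 := Finset.sum_le_sum fun χ _ => hpt χ
      _ = (∑ χ : DirichletCharacter ℂ d, ‖SF F χ‖ ^ 2 + ∑ χ : DirichletCharacter ℂ d, ‖SF F' χ‖ ^ 2) / 2 := by
          rw [← Finset.sum_add_distrib, Finset.sum_div]
      _ ≤ C0 ^ 2 := by linarith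
  calc cv (cv (cv Q t) (sm S F)) (sm S F') a - cv (cv (cv Q t) F) F' a
      ≤ 1 / (Fintype.card (ZMod d)ˣ : ℝ) *
        ∑ χ : DirichletCharacter ℂ d, ‖SF (cv (cv (cv Q t) (sm S F)) (sm S F')) χ - SF (cv (cv (cv Q t) F) F') χ‖ := h1
    _ ≤ 1 / (Fintype.card (ZMod d)ˣ : ℝ) * (2 * τ * ∑ χ : DirichletCharacter ℂ d, ‖SF F χ‖ * ‖SF F' χ‖) :=
        mul_le_mul_of_nonneg_left h2 (by positivity)
    _ ≤ 1 / (Fintype.card (ZMod d)ˣ : ℝ) * (2 * τ * C0 ^ 2) :=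
        mul_le_mul_of_nonneg_left (mul_le_mul_of_nonneg_left h3 (by positivity)) (by positivity)
    _ = 2 * τ * C0 ^ 2 / (Fintype.card (ZMod d)ˣ : ℝ) := by ring

theorem transfer {ι : Type*} (I : Finset ι) (S : Finset (DirichletCharacter ℂ d)) (hS : S.Nonempty) (Q t : (ZMod d)ˣ → ℝ)
    (F F' : ι → (ZMod d)ˣ → ℝ) (τ C0 : ℝ) (hτ : 0 ≤ τ) (hC0 : 0 ≤ C0)
    (hQ : ∀ x, 0 ≤ Q x) (hQ1 : ∑ x, Q x = 1) (ht : ∀ x, 0 ≤ t x) (ht1 : ∑ x, t x = 1)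
    (hSt : ∀ χ : DirichletCharacter ℂ d, τ ≤ ‖SF t χ‖ → 1 - τ ≤ bh S χ)
    (hF : ∀ i ∈ I, ∀ x, 0 ≤ F i x) (hF' : ∀ i ∈ I, ∀ x, 0 ≤ F' i x) (hFC : ∀ i ∈ I, ∀ x, F i x ≤ C0 / (Fintype.card (ZMod d)ˣ : ℝ))
    (hFC' : ∀ i ∈ I, ∀ x, F' i x ≤ C0 / (Fintype.card (ZMod d)ˣ : ℝ)) (a : (ZMod d)ˣ) (ha : ∀ i ∈ I, cv (cv (cv Q t) (F i)) (F' i) a = 0) :
    ∃ w : (ZMod d)ˣ, 0 < cv Q t w ∧ ∀ i ∈ I, cv (sm S (F i)) (sm S (F' i)) (w⁻¹ * a) ≤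
      (I.card : ℝ) * (2 * τ * C0 ^ 2) / (Fintype.card (ZMod d)ˣ : ℝ) := by
  classical
  set N : ℝ := (Fintype.card (ZMod d)ˣ : ℝ) with hNdef
  set K : ℝ := (I.card : ℝ) * (2 * τ * C0 ^ 2) / N with hK
  have hq0 : ∀ x, 0 ≤ cv Q t x := cv_nonneg Q t hQ ht
  have hq1 : ∑ x, cv Q t x = 1 := by rw [sum_cv, hQ1, ht1, one_mul]
  have hg0 : ∀ i ∈ I, ∀ x, 0 ≤ cv (sm S (F i)) (sm S (F' i)) x := fun i hi x =>
    cv_nonneg _ _ (sm_nonneg S (F i) (hF i hi)) (sm_nonneg S (F' i) (hF' i hi)) x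
  set W : (ZMod d)ˣ → ℝ := fun w => ∑ i ∈ I, cv (sm S (F i)) (sm S (F' i)) (w⁻¹ * a) with hW
  have hsum : ∑ w, cv Q t w * W w ≤ K := by
    have h1 : ∑ w, cv Q t w * W w = ∑ i ∈ I, cv (cv (cv Q t) (sm S (F i))) (sm S (F' i)) a := by
      have e1 : ∀ i ∈ I, cv (cv (cv Q t) (sm S (F i))) (sm S (F' i)) a =
          ∑ w, cv Q t w * cv (sm S (F i)) (sm S (F' i)) (w⁻¹ * a) := fun i _ => by
        rw [cv_assoc]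
        rfl
      rw [Finset.sum_congr rfl e1, Finset.sum_comm]
      refine Finset.sum_congr rfl fun w _ => ?_
      rw [hW, Finset.mul_sum]
    rw [h1]
    have h2 : ∀ i ∈ I, cv (cv (cv Q t) (sm S (F i))) (sm S (F' i)) a ≤ 2 * τ * C0 ^ 2 / N := fun i hi => by
      have := transfer_one S hS Q t (F i) (F' i) τ C0 hτ hC0 hQ hQ1 ht ht1 hSt (hF i hi) (hF' i hi) (hFC i hi) (hFC' i hi) a
      rw [ha i hi, sub_zero] at this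
      exact this
    calc ∑ i ∈ I, cv (cv (cv Q t) (sm S (F i))) (sm S (F' i)) a ≤ ∑ _i ∈ I, 2 * τ * C0 ^ 2 / N := Finset.sum_le_sum h2
      _ = K := by
          rw [Finset.sum_const, nsmul_eq_mul, hK]
          ring
  have hex : ∃ w, 0 < cv Q t w ∧ W w ≤ K := by
    by_contra hno
    push Not at hno
    have h3 : ∀ w ∈ (univ : Finset (ZMod d)ˣ), cv Q t w * K ≤ cv Q t w * W w := fun w _ => by
      rcases (hq0 w).eq_or_lt with h | h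
      · rw [← h, zero_mul, zero_mul]
      · exact mul_le_mul_of_nonneg_left (hno w h).le (hq0 w)
    have h4 : ∃ w ∈ (univ : Finset (ZMod d)ˣ), cv Q t w * K < cv Q t w * W w := by
      have h5 : ∃ w, 0 < cv Q t w := by
        by_contra hno2
        push Not at hno2
        have h6 : ∑ x, cv Q t x ≤ 0 := Finset.sum_nonpos fun x _ => hno2 x
        rw [hq1] at h6
        linarith
      obtain ⟨w, hw⟩ := h5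
      exact ⟨w, Finset.mem_univ w, mul_lt_mul_of_pos_left (hno w hw) hw⟩
    have h7 := Finset.sum_lt_sum h3 h4
    rw [← Finset.sum_mul, hq1, one_mul] at h7
    linarith
  obtain ⟨w, hw, hWw⟩ := hex
  refine ⟨w, hw, fun i hi => ?_⟩
  refine le_trans ?_ hWw
  rw [hW]
  exact Finset.single_le_sum (f := fun i => cv (sm S (F i)) (sm S (F' i)) (w⁻¹ * a)) (fun j hj => hg0 j hj _) hi

end Pool.Agent.Lib.MP_42948a_nt.EK
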