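import Mathlib

/-!
# Partial summation (job TI1; Mathlib only)

`a : ℕ → ℂ`, `S N = ∑ n ∈ Icc 1 N, a n`, `‖S N‖ ≤ N δ` for all `N ≥ A`, `1 ≤ A ≤ B`. Abel summation:
`∑_{n ∈ Ioc A B} a n/n = S B/B - S A/(A+1) + ∑_{n ∈ Ioc A (B-1)} S n (1/n - 1/(n+1))` (for `A < B`; induction on `B` is easiest: prove for all `B ≥ A` the identity
`∑_{n ∈ Ioc A B} a n/n = S B/(B+1) - S A/(A+1) + ∑_{n ∈ Ioc A B} S n (1/n - 1/(n+1))`, the step is `a (B+1)/(B+1) = S (B+1)/(B+2) - S B/(B+1) + S (B+1) (1/(B+1) - 1/(B+2))`).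
So the norm is `≤ δ + δ + ∑_{n ∈ Ioc A B} n δ/(n (n+1)) = δ (2 + ∑ 1/(n+1)) ≤ δ (2 + log (B/A))`: `1/(n+1) ≤ log ((n+1)/n)` (`Real.one_sub_inv_le_log_of_pos` or `add_one_le_exp`), the sum over `Ioc A B` telescopes to
`log ((B+1)/(A+1)) ≤ log (B/A)`.
-/

namespace Pool.Agent.Lib.MP_42948a_nt.EK

open Finset

private theorem TI1_abel (a : ℕ → ℂ) (A B : ℕ) (hAB : A ≤ B) :
    ∑ n ∈ Ioc A B, a n / (n : ℂ) =
      (∑ n ∈ Icc 1 B, a n) / ((B : ℂ) + 1) - (∑ n ∈ Icc 1 A, a n) / ((A : ℂ) + 1) +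
        ∑ N ∈ Ioc A B, (∑ n ∈ Icc 1 N, a n) * (1 / (N : ℂ) - 1 / ((N : ℂ) + 1)) := by
  induction B, hAB using Nat.le_induction with
  | base => simp
  | succ B hB ih =>
    rw [Finset.sum_Ioc_succ_top hB, ih, Finset.sum_Ioc_succ_top hB,
      Finset.sum_Icc_succ_top (Nat.succ_pos B)]
    have h1 : ((B : ℂ) + 1) ≠ 0 := by exact_mod_cast Nat.succ_ne_zero B
    have h2 : ((B : ℂ) + 1 + 1) ≠ 0 := by exact_mod_cast Nat.succ_ne_zero (B + 1)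
    push_cast
    field_simp
    ring

private theorem TI1_log (A B : ℕ) (hA : 1 ≤ A) (hAB : A ≤ B) :
    ∑ n ∈ Ioc A B, 1 / ((n : ℝ) + 1) ≤ Real.log ((B : ℝ) / A) := by
  have hA0 : (0 : ℝ) < A := by exact_mod_cast hA
  induction B, hAB using Nat.le_induction with
  | base =>
    rw [Finset.Ioc_self, Finset.sum_empty, div_self hA0.ne', Real.log_one]
  | succ B hB ih =>
    have hB0 : (0 : ℝ) < B := by exact_mod_cast lt_of_lt_of_le hA hB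
    rw [Finset.sum_Ioc_succ_top hB]
    have h1 : Real.log (((B + 1 : ℕ) : ℝ) / A) =
        Real.log ((B : ℝ) / A) + Real.log (((B : ℝ) + 1) / B) := by
      rw [← Real.log_mul (by positivity) (by positivity)]
      congr 1
      push_cast
      field_simp
    have h2 := Real.one_sub_inv_le_log_of_pos (show (0 : ℝ) < ((B : ℝ) + 1) / B by positivity)
    have h3 : 1 - (((B : ℝ) + 1) / B)⁻¹ = 1 / ((B : ℝ) + 1) := by
      field_simp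
      ring
    have h4 : 1 / (((B + 1 : ℕ) : ℝ) + 1) ≤ 1 / ((B : ℝ) + 1) := by
      push_cast
      exact one_div_le_one_div_of_le (by positivity) (by linarith)
    rw [h1]
    rw [h3] at h2
    linarith

theorem log_sum_bound (a : ℕ → ℂ) (δ : ℝ) (hδ : 0 ≤ δ) (A B : ℕ) (hA : 1 ≤ A) (hAB : A ≤ B)
    (h : ∀ N : ℕ, A ≤ N → ‖∑ n ∈ Icc 1 N, a n‖ ≤ (N : ℝ) * δ) :
    ‖∑ n ∈ Ioc A B, a n / (n : ℂ)‖ ≤ δ * (2 + Real.log ((B : ℝ) / A)) := by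
  have hend : ∀ N : ℕ, A ≤ N → ‖(∑ n ∈ Icc 1 N, a n) / ((N : ℂ) + 1)‖ ≤ δ := by
    intro N hN
    have h1 : ‖((N : ℂ) + 1)‖ = (N : ℝ) + 1 := by
      have h2 : ((N : ℂ) + 1) = ((N + 1 : ℕ) : ℂ) := by push_cast; rfl
      rw [h2, Complex.norm_natCast]
      push_cast
      rfl
    rw [norm_div, h1, div_le_iff₀ (by positivity)]
    have := h N hN
    nlinarith
  have hterm : ∀ N ∈ Ioc A B,
      ‖(∑ n ∈ Icc 1 N, a n) * (1 / (N : ℂ) - 1 / ((N : ℂ) + 1))‖ ≤ δ * (1 / ((N : ℝ) + 1)) := by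
    intro N hN
    have hN1 : A < N := (Finset.mem_Ioc.1 hN).1
    have hN0 : (0 : ℝ) < N := by exact_mod_cast (lt_of_lt_of_le hA hN1.le)
    have hN0' : (N : ℂ) ≠ 0 := by exact_mod_cast hN0.ne'
    have hN2' : (N : ℂ) + 1 ≠ 0 := by exact_mod_cast Nat.succ_ne_zero N
    have h1 : (1 / (N : ℂ) - 1 / ((N : ℂ) + 1)) = (((1 / ((N : ℝ) * ((N : ℝ) + 1)) : ℝ)) : ℂ) := by
      push_cast
      field_simp
      ring
    have h2 : ‖(1 / (N : ℂ) - 1 / ((N : ℂ) + 1))‖ = 1 / ((N : ℝ) * ((N : ℝ) + 1)) := by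
      rw [h1, Complex.norm_real, Real.norm_eq_abs, abs_of_pos (by positivity)]
    rw [norm_mul, h2]
    calc ‖∑ n ∈ Icc 1 N, a n‖ * (1 / ((N : ℝ) * ((N : ℝ) + 1)))
        ≤ (N : ℝ) * δ * (1 / ((N : ℝ) * ((N : ℝ) + 1))) :=
          mul_le_mul_of_nonneg_right (h N hN1.le) (by positivity)
      _ = δ * (1 / ((N : ℝ) + 1)) := by
          field_simp
  rw [TI1_abel a A B hAB]
  have h1 := hend B hAB
  have h2 := hend A le_rfl
  have h3 : ‖∑ N ∈ Ioc A B, (∑ n ∈ Icc 1 N, a n) * (1 / (N : ℂ) - 1 / ((N : ℂ) + 1))‖ ≤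
      δ * Real.log ((B : ℝ) / A) := by
    refine (norm_sum_le_of_le _ hterm).trans ?_
    rw [← Finset.mul_sum]
    exact mul_le_mul_of_nonneg_left (TI1_log A B hA hAB) hδ
  refine (norm_add_le _ _).trans ?_
  have h4 := norm_sub_le ((∑ n ∈ Icc 1 B, a n) / ((B : ℂ) + 1))
    ((∑ n ∈ Icc 1 A, a n) / ((A : ℂ) + 1))
  linarith [(by ring : δ * (2 + Real.log ((B : ℝ) / A)) = δ + δ + δ * Real.log ((B : ℝ) / A))]

end Pool.Agent.Lib.MP_42948a_nt.EK
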