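import Mathlib

/-!
# The number of integers coprime to `d` (job TI2a; Mathlib only)

`[n coprime to d] = ∑_{e ∣ gcd(n, d)} μ e` (`ArithmeticFunction.coe_moebius_mul_coe_zeta`/`Nat.sum_divisors ..`: `∑ e ∈ (gcd n d).divisors, μ e = if gcd n d = 1 then 1 else 0`). Exchange:
`#{n ∈ Icc 1 N coprime to d} = ∑_{e ∣ d} μ e ⌊N/e⌋` (`e ∣ gcd(n, d) ↔ e ∣ n ∧ e ∣ d`; the number of multiples of `e` in `Icc 1 N` is `N / e`, `Nat.card_multiples` or similar).
`∑_{e ∣ d} μ e/e = φ(d)/d`: `d ∑_{e ∣ d} μ e/e = ∑_{e ∣ d} μ e (d/e) = φ(d)` by Moebius inversion of `∑_{e ∣ d} φ e = d` (`Nat.sum_totient`, `ArithmeticFunction.sum_eq_iff_sum_mul_moebius_eq`), or apply the first formula with `N = d`: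
`φ(d) = #{n ∈ Icc 1 d coprime to d} = ∑_{e ∣ d} μ e (d/e)` (here `d/e` is exact!). This is the simplest way. Then `|∑_{e ∣ d} μ e (⌊N/e⌋ - N/e)| ≤ ∑_{e ∣ d} 1` (`|μ e| ≤ 1`).
-/

namespace Pool.Agent.Lib.MP_42948a_nt.EK

open Finset

private theorem TI2a_formula (d : ℕ) (hd : 0 < d) (N : ℕ) :
    (((Icc 1 N).filter (fun n : ℕ => n.Coprime d)).card : ℤ) =
      ∑ e ∈ d.divisors, ArithmeticFunction.moebius e * ((N / e : ℕ) : ℤ) := by
  have h1 : ∀ n : ℕ, (if n.Coprime d then (1 : ℤ) else 0) =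
      ∑ e ∈ d.divisors, if e ∣ n then ArithmeticFunction.moebius e else 0 := by
    intro n
    have h2 : ∑ e ∈ (Nat.gcd n d).divisors, ArithmeticFunction.moebius e =
        if Nat.gcd n d = 1 then (1 : ℤ) else 0 := by
      rw [← ArithmeticFunction.coe_mul_zeta_apply, ArithmeticFunction.moebius_mul_coe_zeta,
        ArithmeticFunction.one_apply]
    rw [← Finset.sum_filter]
    have h3 : d.divisors.filter (fun e => e ∣ n) = (Nat.gcd n d).divisors := by
      ext e
      rw [Finset.mem_filter, Nat.mem_divisors, Nat.mem_divisors, Nat.dvd_gcd_iff]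
      constructor
      · rintro ⟨⟨a, _⟩, b⟩
        exact ⟨⟨b, a⟩, (Nat.gcd_pos_of_pos_right n hd).ne'⟩
      · rintro ⟨⟨a, b⟩, _⟩
        exact ⟨⟨b, hd.ne'⟩, a⟩
    rw [h3, h2]
  have h2 : (((Icc 1 N).filter (fun n : ℕ => n.Coprime d)).card : ℤ) =
      ∑ n ∈ Icc 1 N, if n.Coprime d then (1 : ℤ) else 0 := by
    rw [Finset.sum_boole]
  rw [h2, Finset.sum_congr rfl fun n _ => h1 n, Finset.sum_comm]
  refine Finset.sum_congr rfl fun e _ => ?_
  rw [← Finset.sum_filter, Finset.sum_const, nsmul_eq_mul, mul_comm]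
  congr 1
  have h3 : (Icc 1 N).filter (fun n => e ∣ n) = (Ioc 0 N).filter (fun n => e ∣ n) := by
    ext n
    simp only [Finset.mem_filter, Finset.mem_Icc, Finset.mem_Ioc]
    constructor
    · rintro ⟨⟨a, b⟩, c⟩
      exact ⟨⟨a, b⟩, c⟩
    · rintro ⟨⟨a, b⟩, c⟩
      exact ⟨⟨a, b⟩, c⟩
  rw [h3, Nat.Ioc_filter_dvd_card_eq_div]

theorem count_coprime (d : ℕ) (hd : 0 < d) (N : ℕ) :
    |(((Icc 1 N).filter (fun n : ℕ => n.Coprime d)).card : ℝ) - (N : ℝ) * ((d.totient : ℝ) / d)| ≤ (d.divisors.card : ℝ) := by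
  have hdr : (0 : ℝ) < d := by exact_mod_cast hd
  have hN : (((Icc 1 N).filter (fun n : ℕ => n.Coprime d)).card : ℝ) =
      ∑ e ∈ d.divisors, (ArithmeticFunction.moebius e : ℝ) * ((N / e : ℕ) : ℝ) := by
    have h := congrArg (Int.cast : ℤ → ℝ) (TI2a_formula d hd N)
    push_cast at h
    exact h
  have hφ : (d.totient : ℝ) =
      ∑ e ∈ d.divisors, (ArithmeticFunction.moebius e : ℝ) * ((d / e : ℕ) : ℝ) := by
    have h := TI2a_formula d hd d
    have h1 : ((Icc 1 d).filter (fun n : ℕ => n.Coprime d)).card = d.totient := by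
      rw [← Nat.filter_coprime_Ico_eq_totient d 1]
      congr 1
      ext n
      simp only [Finset.mem_filter, Finset.mem_Icc, Finset.mem_Ico, Nat.coprime_comm (n := d)]
      constructor
      · rintro ⟨⟨a, b⟩, c⟩
        exact ⟨⟨a, by omega⟩, c⟩
      · rintro ⟨⟨a, b⟩, c⟩
        exact ⟨⟨a, by omega⟩, c⟩
    rw [h1] at h
    have h2 := congrArg (Int.cast : ℤ → ℝ) h
    push_cast at h2
    exact h2
  rw [hN, hφ, Finset.sum_div, Finset.mul_sum, ← Finset.sum_sub_distrib]
  calc |∑ e ∈ d.divisors, ((ArithmeticFunction.moebius e : ℝ) * ((N / e : ℕ) : ℝ) -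
        (N : ℝ) * ((ArithmeticFunction.moebius e : ℝ) * ((d / e : ℕ) : ℝ) / d))|
      ≤ ∑ e ∈ d.divisors, |(ArithmeticFunction.moebius e : ℝ) * ((N / e : ℕ) : ℝ) -
        (N : ℝ) * ((ArithmeticFunction.moebius e : ℝ) * ((d / e : ℕ) : ℝ) / d)| :=
        Finset.abs_sum_le_sum_abs _ _
    _ ≤ ∑ _e ∈ d.divisors, (1 : ℝ) := by
        refine Finset.sum_le_sum fun e he => ?_
        have hed := Nat.dvd_of_mem_divisors he
        have he0 : 0 < e := Nat.pos_of_mem_divisors he
        have her : (0 : ℝ) < e := by exact_mod_cast he0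
        have h1 : ((d / e : ℕ) : ℝ) = d / e := Nat.cast_div hed her.ne'
        have h2 : (N : ℝ) * ((ArithmeticFunction.moebius e : ℝ) * ((d / e : ℕ) : ℝ) / d) =
            (ArithmeticFunction.moebius e : ℝ) * ((N : ℝ) / e) := by
          rw [h1]
          field_simp
        rw [h2, ← mul_sub, abs_mul]
        have h3 : |(ArithmeticFunction.moebius e : ℝ)| ≤ 1 := by
          have := @ArithmeticFunction.abs_moebius_le_one e
          exact_mod_cast this
        have h4 : |((N / e : ℕ) : ℝ) - (N : ℝ) / e| ≤ 1 := by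
          have h5 : ((N / e : ℕ) : ℝ) ≤ (N : ℝ) / e := Nat.cast_div_le
          have h6 : (N : ℝ) / e < ((N / e : ℕ) : ℝ) + 1 := by
            rw [div_lt_iff₀ her]
            have h7 : N < (N / e + 1) * e := by
              have := Nat.div_add_mod N e
              have h8 := Nat.mod_lt N he0
              nlinarith
            exact_mod_cast h7
          rw [abs_le]
          constructor <;> linarith
        calc |(ArithmeticFunction.moebius e : ℝ)| * |((N / e : ℕ) : ℝ) - (N : ℝ) / e| ≤ 1 * 1 :=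
              mul_le_mul h3 h4 (abs_nonneg _) zero_le_one
          _ = 1 := one_mul 1
    _ = (d.divisors.card : ℝ) := by
        rw [Finset.sum_const, nsmul_eq_mul, mul_one]

end Pool.Agent.Lib.MP_42948a_nt.EK
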