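import Pool.Agent.Lib.MP_42948a_nt.EK.TI0
import Pool.Agent.Lib.MP_42948a_nt.EK.TI2a

/-!
# The harmonic sum over the integers coprime to `d` (job TI2b)

Let `C N = #{n ∈ Icc 1 N coprime to d}`, `E N = C N - N φ(d)/d`, `|E N| ≤ T := #d.divisors` (`count_coprime`), `T ≥ 1`. Abel summation (as in the identity: for all `B ≥ A`
`∑_{n ∈ Ioc A B} a n/n = S B/(B+1) - S A/(A+1) + ∑_{n ∈ Ioc A B} S n (1/n - 1/(n+1))`, by induction on `B`) for `a n = [n coprime to d] - φ(d)/d`, `S = E`: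
`|hc d A B - (φ(d)/d) ∑_{n ∈ Ioc A B} 1/n| ≤ T/(B+1) + T/(A+1) + T ∑_{n ∈ Ioc A B} (1/n - 1/(n+1)) ≤ 3 T/A` (the last sum telescopes to `1/(A+1) - 1/(B+1)`).
`|∑_{n ∈ Ioc A B} 1/n - log (B/A)| ≤ 1/A`: `1/(n+1) ≤ log((n+1)/n) ≤ 1/n` gives `log ((B+1)/(A+1)) ≤ ∑_{n ∈ Ioc A B} 1/n ≤ log (B/A)`, and `log (B/A) - log ((B+1)/(A+1)) ≤ log ((A+1)/A) ≤ 1/A`.
`φ(d)/d ≤ 1`. Total `≤ 3 T/A + 1/A ≤ 4 T/A`.
-/

namespace Pool.Agent.Lib.MP_42948a_nt.EK

open Finset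

open Classical in
private theorem TI2b_hc_succ (d A B : ℕ) (hAB : A ≤ B) :
    hc d A (B + 1) = hc d A B + (if (B + 1).Coprime d then (1 : ℝ) else 0) / ((B : ℝ) + 1) := by
  unfold hc
  rw [Finset.sum_filter, Finset.sum_filter, Finset.sum_Ioc_succ_top hAB]
  congr 1
  unfold rw1
  split_ifs
  · push_cast
    rfl
  · rw [zero_div]

open Classical in
private theorem TI2b_card_succ (d B : ℕ) :
    (((Icc 1 (B + 1)).filter (fun n : ℕ => n.Coprime d)).card : ℝ) =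
      (((Icc 1 B).filter (fun n : ℕ => n.Coprime d)).card : ℝ) +
        (if (B + 1).Coprime d then (1 : ℝ) else 0) := by
  rw [Finset.card_filter, Finset.card_filter, Finset.sum_Icc_succ_top (by omega)]
  push_cast
  congr 1

private theorem TI2b_log (A B : ℕ) (hA : 1 ≤ A) (hAB : A ≤ B) :
    Real.log ((B : ℝ) + 1) - Real.log ((A : ℝ) + 1) ≤ ∑ n ∈ Ioc A B, 1 / (n : ℝ) ∧
      ∑ n ∈ Ioc A B, 1 / (n : ℝ) ≤ Real.log B - Real.log A := by
  induction B, hAB using Nat.le_induction with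
  | base => simp
  | succ B hB ih =>
    have hB0 : (0 : ℝ) < B := by exact_mod_cast hA.trans hB
    rw [Finset.sum_Ioc_succ_top hB]
    have h1 : Real.log ((B : ℝ) + 1 + 1) - Real.log ((B : ℝ) + 1) ≤ 1 / ((B : ℝ) + 1) := by
      rw [← Real.log_div (by positivity) (by positivity)]
      refine (Real.log_le_sub_one_of_pos (by positivity)).trans (le_of_eq ?_)
      field_simp
      ring
    have h2 : 1 / ((B : ℝ) + 1) ≤ Real.log ((B : ℝ) + 1) - Real.log B := by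
      have h3 : Real.log ((B : ℝ) / (B + 1)) ≤ (B : ℝ) / (B + 1) - 1 :=
        Real.log_le_sub_one_of_pos (by positivity)
      rw [Real.log_div (by positivity) (by positivity)] at h3
      have h4 : (B : ℝ) / (B + 1) - 1 = -(1 / ((B : ℝ) + 1)) := by
        field_simp
        ring
      linarith
    push_cast
    constructor
    · linarith [ih.1]
    · linarith [ih.2]

private theorem TI2b_abel (d A B : ℕ) (hA : 1 ≤ A) (hAB : A ≤ B) (ρ T : ℝ) (S : ℕ → ℝ)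
    (hS : ∀ N : ℕ, S N = (((Icc 1 N).filter (fun n : ℕ => n.Coprime d)).card : ℝ) - N * ρ)
    (hT : ∀ N, |S N| ≤ T) :
    |hc d A B - ρ * ∑ n ∈ Ioc A B, 1 / (n : ℝ) - (S B / ((B : ℝ) + 1) - S A / ((A : ℝ) + 1))| ≤
      T * (1 / ((A : ℝ) + 1) - 1 / ((B : ℝ) + 1)) := by
  classical
  induction B, hAB using Nat.le_induction with
  | base =>
    have h0 : hc d A A = 0 := by
      unfold hc
      rw [Finset.Ioc_self, Finset.filter_empty, Finset.sum_empty]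
    rw [h0, Finset.Ioc_self, Finset.sum_empty]
    simp
  | succ B hB ih =>
    have hB0 : (0 : ℝ) < B := by exact_mod_cast hA.trans hB
    rw [TI2b_hc_succ d A B hB, Finset.sum_Ioc_succ_top hB]
    obtain ⟨x, hx⟩ : ∃ x : ℝ, x = (if (B + 1).Coprime d then (1 : ℝ) else 0) := ⟨_, rfl⟩
    have h1 : S (B + 1) = S B + x - ρ := by
      have h2 := TI2b_card_succ d B
      rw [← hx] at h2
      rw [hS, hS]
      push_cast
      linarith
    rw [← hx]
    push_cast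
    have hp : (0 : ℝ) < (B : ℝ) + 1 := by positivity
    have hq : (0 : ℝ) < (B : ℝ) + 1 + 1 := by positivity
    have h3 : 0 ≤ 1 / ((B : ℝ) + 1) - 1 / ((B : ℝ) + 1 + 1) := by
      rw [sub_nonneg]
      exact one_div_le_one_div_of_le hp (by linarith)
    have h4 : |S (B + 1) * (1 / ((B : ℝ) + 1) - 1 / ((B : ℝ) + 1 + 1))| ≤
        T * (1 / ((B : ℝ) + 1) - 1 / ((B : ℝ) + 1 + 1)) := by
      rw [abs_mul, abs_of_nonneg h3]
      exact mul_le_mul_of_nonneg_right (hT _) h3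
    have h5 : hc d A B + x / ((B : ℝ) + 1) -
          ρ * (∑ n ∈ Ioc A B, 1 / (n : ℝ) + 1 / ((B : ℝ) + 1)) -
          (S (B + 1) / ((B : ℝ) + 1 + 1) - S A / ((A : ℝ) + 1)) =
        (hc d A B - ρ * ∑ n ∈ Ioc A B, 1 / (n : ℝ) -
          (S B / ((B : ℝ) + 1) - S A / ((A : ℝ) + 1))) +
          S (B + 1) * (1 / ((B : ℝ) + 1) - 1 / ((B : ℝ) + 1 + 1)) := by
      have h6 : x = S (B + 1) - S B + ρ := by linarith
      rw [h6]
      ring
    rw [h5]
    refine (abs_add_le _ _).trans ?_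
    have h7 : T * (1 / ((A : ℝ) + 1) - 1 / ((B : ℝ) + 1 + 1)) =
        T * (1 / ((A : ℝ) + 1) - 1 / ((B : ℝ) + 1)) +
          T * (1 / ((B : ℝ) + 1) - 1 / ((B : ℝ) + 1 + 1)) := by ring
    rw [h7]
    exact add_le_add ih h4

theorem hc_bound (d : ℕ) (hd : 0 < d) (A B : ℕ) (hA : 1 ≤ A) (hAB : A ≤ B) :
    |hc d A B - (d.totient : ℝ) / d * Real.log ((B : ℝ) / A)| ≤ 4 * (d.divisors.card : ℝ) / A := by
  obtain ⟨T, hT⟩ : ∃ T : ℝ, T = (d.divisors.card : ℝ) := ⟨_, rfl⟩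
  obtain ⟨ρ, hρ⟩ : ∃ ρ : ℝ, ρ = (d.totient : ℝ) / d := ⟨_, rfl⟩
  obtain ⟨S, hS⟩ : ∃ S : ℕ → ℝ, ∀ N : ℕ,
    S N = (((Icc 1 N).filter (fun n : ℕ => n.Coprime d)).card : ℝ) - N * ρ := ⟨_, fun _ => rfl⟩
  have hST : ∀ N, |S N| ≤ T := by
    intro N
    rw [hS, hT, hρ]
    exact count_coprime d hd N
  rw [← hT, ← hρ]
  have hd0 : (0 : ℝ) < d := by exact_mod_cast hd
  have hA0 : (0 : ℝ) < A := by exact_mod_cast hA
  have hB0 : (0 : ℝ) < B := by exact_mod_cast hA.trans hAB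
  have hT1 : 1 ≤ T := by
    rw [hT]
    exact_mod_cast Finset.card_pos.2 (Nat.nonempty_divisors.2 hd.ne')
  have hρ0 : 0 ≤ ρ := by
    rw [hρ]
    positivity
  have hρ1 : ρ ≤ 1 := by
    rw [hρ, div_le_one hd0]
    exact_mod_cast Nat.totient_le d
  have h1 := TI2b_abel d A B hA hAB ρ T S hS hST
  obtain ⟨h2, h3⟩ := TI2b_log A B hA hAB
  obtain ⟨H, hH⟩ : ∃ H : ℝ, H = ∑ n ∈ Ioc A B, 1 / (n : ℝ) := ⟨_, rfl⟩
  rw [← hH] at h1 h2 h3
  have h4 : Real.log ((A : ℝ) + 1) - Real.log A ≤ 1 / A := by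
    rw [← Real.log_div (by positivity) (by positivity)]
    refine (Real.log_le_sub_one_of_pos (by positivity)).trans (le_of_eq ?_)
    field_simp
    ring
  have h5 : Real.log B ≤ Real.log ((B : ℝ) + 1) := Real.log_le_log hB0 (by linarith)
  have h6 : Real.log ((B : ℝ) / A) = Real.log B - Real.log A :=
    Real.log_div hB0.ne' hA0.ne'
  have h7 : |ρ * (H - Real.log ((B : ℝ) / A))| ≤ 1 / A := by
    rw [abs_mul, abs_of_nonneg hρ0]
    have h8 : |H - Real.log ((B : ℝ) / A)| ≤ 1 / A := by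
      rw [h6, abs_le]
      have h9 : 0 < 1 / (A : ℝ) := by positivity
      constructor
      · linarith
      · linarith
    calc ρ * |H - Real.log ((B : ℝ) / A)| ≤ 1 * (1 / A) :=
          mul_le_mul hρ1 h8 (abs_nonneg _) zero_le_one
      _ = 1 / A := one_mul _
  have h10 : |S B / ((B : ℝ) + 1)| ≤ T * (1 / ((B : ℝ) + 1)) := by
    have hb : (0 : ℝ) < (B : ℝ) + 1 := by positivity
    rw [abs_div, abs_of_pos hb, mul_one_div]
    exact div_le_div_of_nonneg_right (hST B) hb.le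
  have h11 : |S A / ((A : ℝ) + 1)| ≤ T * (1 / ((A : ℝ) + 1)) := by
    have hb : (0 : ℝ) < (A : ℝ) + 1 := by positivity
    rw [abs_div, abs_of_pos hb, mul_one_div]
    exact div_le_div_of_nonneg_right (hST A) hb.le
  have h12 : T * (1 / ((A : ℝ) + 1)) ≤ T / A := by
    rw [mul_one_div]
    exact div_le_div_of_nonneg_left (by linarith) hA0 (by linarith)
  have h13 : 1 / (A : ℝ) ≤ T / A := div_le_div_of_nonneg_right hT1 hA0.le
  have h14 : 4 * T / A = 4 * (T / A) := by ring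
  have h15 : hc d A B - ρ * Real.log ((B : ℝ) / A) =
      (hc d A B - ρ * H - (S B / ((B : ℝ) + 1) - S A / ((A : ℝ) + 1))) +
        S B / ((B : ℝ) + 1) - S A / ((A : ℝ) + 1) + ρ * (H - Real.log ((B : ℝ) / A)) := by ring
  have h16 : 0 ≤ T / A := div_nonneg (by linarith) hA0.le
  rw [h14, h15]
  have k1 := abs_le.1 h1
  have k2 := abs_le.1 h7
  have k3 := abs_le.1 h10
  have k4 := abs_le.1 h11
  have k5 : T * (1 / ((A : ℝ) + 1) - 1 / ((B : ℝ) + 1)) =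
      T * (1 / ((A : ℝ) + 1)) - T * (1 / ((B : ℝ) + 1)) := by ring
  rw [k5] at k1
  rw [abs_le]
  constructor
  · linarith [k1.1, k2.1, k3.1, k4.2]
  · linarith [k1.2, k2.2, k3.2, k4.1]

end Pool.Agent.Lib.MP_42948a_nt.EK
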