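import Pool.Agent.Lib.MP_42948a_nt.EK.A4
import Pool.Agent.Lib.MP_42948a_nt.EK.TI0
import Pool.Agent.Lib.MP_42948a_nt.EK.TI1

/-!
# Type I sums for the Fejer kernel (job TI3)

`bt_expand`: `inversion` (`TQ/B2.lean`) with `f = bt S`, `SF_bt` (`A2.lean`).
`bt_le`: `‖∑ ψ ∈ S, ev ψ x‖ ≤ #S` (`norm_ev`), so `bt S x ≤ #S^2/(#S φ) = #S/φ`.
`typeI`: `n = m k` runs over the multiples of `m` in `Ioc A B`: `k ∈ Ioc (A/m) (B/m)` (natural division), `n` coprime to `d` iff `k` coprime to `d` (`m` is), `ucl d (m k) = ucl d m * ucl d k` (`ucl_mul`), `rw1 (m k) = rw1 m * rw1 k`.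
With `y = (ucl d m)⁻¹ * g`: the sum is `rw1 m ∑_k rw1 k * bt S ((ucl d k)⁻¹ * y)`, and by `bt_expand` `φ * ∑_k rw1 k * bt S ((ucl k)⁻¹ y) = ∑_χ bh S χ * ev χ y * ∑_{k coprime} (1/k) * ev χ (ucl k)⁻¹`. The term `χ = 1` is
`hc d (A/m) (B/m)` (`bh_one`, `ev 1 = 1`). For `χ ≠ 1`: `ev χ (ucl k)⁻¹ = conj (ev χ (ucl k)) = conj (χ k)` (`conj_ev`, `ucl_val`), `χ k = 0` for `k` not coprime to `d`, so the inner sum is the conjugate of
`∑_{k ∈ Ioc (A/m) (B/m)} χ k/k`, of norm `≤ δ (2 + log ((B/m)/(A/m)))` by `log_sum_bound` (`TI1.lean`). The terms with `bh S χ = 0` vanish, `bh S χ ≤ 1`, and there are at most `#S^2` others (`bh_supp`).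
-/

namespace Pool.Agent.Lib.MP_42948a_nt.EK

open Finset Pool.Agent.Lib.MP_42948a_nt.OA Pool.Agent.Lib.MP_42948a_nt.AC Pool.Agent.Lib.MP_42948a_nt.TQ
  Pool.Agent.Lib.MP_42948a_nt.PS

variable {d : ℕ} [NeZero d]

theorem bt_expand (S : Finset (DirichletCharacter ℂ d)) (hS : S.Nonempty) (x : (ZMod d)ˣ) :
    (Fintype.card (ZMod d)ˣ : ℂ) * ((bt S x : ℝ) : ℂ) = ∑ χ : DirichletCharacter ℂ d, ((bh S χ : ℝ) : ℂ) * ev χ x := by
  rw [← inversion (bt S) x]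
  exact Finset.sum_congr rfl fun χ _ => by rw [SF_bt S hS]

theorem bt_le (S : Finset (DirichletCharacter ℂ d)) (hS : S.Nonempty) (x : (ZMod d)ˣ) :
    bt S x ≤ (S.card : ℝ) / (Fintype.card (ZMod d)ˣ : ℝ) := by
  have hN : (0 : ℝ) < (Fintype.card (ZMod d)ˣ : ℝ) := by
    exact_mod_cast Fintype.card_pos
  have hc : (0 : ℝ) < (S.card : ℝ) := by
    exact_mod_cast Finset.card_pos.mpr hS
  have h1 : ‖∑ ψ ∈ S, ev ψ x‖ ≤ (S.card : ℝ) := by
    calc ‖∑ ψ ∈ S, ev ψ x‖ ≤ ∑ ψ ∈ S, ‖ev ψ x‖ := norm_sum_le _ _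
      _ = (S.card : ℝ) := by
          rw [Finset.sum_congr rfl fun ψ _ => norm_ev ψ x, Finset.sum_const, nsmul_eq_mul, mul_one]
  unfold bt
  rw [div_le_div_iff₀ (mul_pos hc hN) hN]
  have h2 : ‖∑ ψ ∈ S, ev ψ x‖ ^ 2 ≤ (S.card : ℝ) ^ 2 := pow_le_pow_left₀ (norm_nonneg _) h1 2
  calc ‖∑ ψ ∈ S, ev ψ x‖ ^ 2 * (Fintype.card (ZMod d)ˣ : ℝ) ≤ (S.card : ℝ) ^ 2 * (Fintype.card (ZMod d)ˣ : ℝ) :=
        mul_le_mul_of_nonneg_right h2 hN.le
    _ = (S.card : ℝ) * ((S.card : ℝ) * (Fintype.card (ZMod d)ˣ : ℝ)) := by ring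

open Classical in
private theorem TI3_reindex (S : Finset (DirichletCharacter ℂ d)) (m A B : ℕ) (hm : 0 < m) (hmd : m.Coprime d) (g : (ZMod d)ˣ) :
    ∑ n ∈ (Ioc A B).filter (fun n : ℕ => n.Coprime d ∧ m ∣ n), rw1 n * bt S ((ucl d n)⁻¹ * g) =
      rw1 m * ∑ k ∈ (Ioc (A / m) (B / m)).filter (fun k : ℕ => k.Coprime d),
        rw1 k * bt S ((ucl d k)⁻¹ * ((ucl d m)⁻¹ * g)) := by
  rw [Finset.mul_sum]
  symm
  refine Finset.sum_bij (fun k _ => m * k) ?_ ?_ ?_ ?_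
  · intro k hk
    rw [mem_filter, mem_Ioc] at hk
    rw [mem_filter, mem_Ioc]
    refine ⟨⟨?_, ?_⟩, Nat.Coprime.mul_left hmd hk.2, dvd_mul_right m k⟩
    · have := (Nat.div_lt_iff_lt_mul hm).mp hk.1.1
      rwa [mul_comm]
    · have := (Nat.le_div_iff_mul_le hm).mp hk.1.2
      rwa [mul_comm]
  · intro a _ b _ hab
    exact Nat.eq_of_mul_eq_mul_left hm hab
  · intro n hn
    rw [mem_filter, mem_Ioc] at hn
    obtain ⟨⟨h1, h2⟩, h3, k, rfl⟩ := hn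
    refine ⟨k, ?_, rfl⟩
    rw [mem_filter, mem_Ioc]
    refine ⟨⟨?_, ?_⟩, Nat.Coprime.coprime_mul_left h3⟩
    · rw [Nat.div_lt_iff_lt_mul hm, mul_comm]
      exact h1
    · rw [Nat.le_div_iff_mul_le hm, mul_comm]
      exact h2
  · intro k hk
    rw [mem_filter] at hk
    have e1 : rw1 (m * k) = rw1 m * rw1 k := by
      unfold rw1
      push_cast
      rw [one_div_mul_one_div]
    have e2 : (ucl d (m * k))⁻¹ * g = (ucl d k)⁻¹ * ((ucl d m)⁻¹ * g) := by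
      rw [ucl_mul hmd hk.2, mul_inv_rev, mul_assoc]
    rw [e1, e2, mul_assoc]

open Classical in
private theorem TI3_swap (S : Finset (DirichletCharacter ℂ d)) (hS : S.Nonempty) (R : Finset ℕ) (y : (ZMod d)ˣ) :
    (Fintype.card (ZMod d)ˣ : ℂ) * ((∑ k ∈ R, rw1 k * bt S ((ucl d k)⁻¹ * y) : ℝ) : ℂ) =
      ∑ χ : DirichletCharacter ℂ d, ((bh S χ : ℝ) : ℂ) * (ev χ y * ∑ k ∈ R, ((rw1 k : ℝ) : ℂ) * ev χ (ucl d k)⁻¹) := by
  push_cast
  rw [Finset.mul_sum]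
  have e1 : ∀ k ∈ R, (Fintype.card (ZMod d)ˣ : ℂ) * (((rw1 k : ℝ) : ℂ) * ((bt S ((ucl d k)⁻¹ * y) : ℝ) : ℂ)) =
      ∑ χ : DirichletCharacter ℂ d, ((bh S χ : ℝ) : ℂ) * (ev χ y * (((rw1 k : ℝ) : ℂ) * ev χ (ucl d k)⁻¹)) := fun k _ => by
    rw [show (Fintype.card (ZMod d)ˣ : ℂ) * (((rw1 k : ℝ) : ℂ) * ((bt S ((ucl d k)⁻¹ * y) : ℝ) : ℂ)) =
      ((rw1 k : ℝ) : ℂ) * ((Fintype.card (ZMod d)ˣ : ℂ) * ((bt S ((ucl d k)⁻¹ * y) : ℝ) : ℂ)) by ring]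
    rw [bt_expand S hS, Finset.mul_sum]
    refine Finset.sum_congr rfl fun χ _ => ?_
    rw [ev_mul]
    ring
  rw [Finset.sum_congr rfl e1, Finset.sum_comm]
  refine Finset.sum_congr rfl fun χ _ => ?_
  rw [Finset.mul_sum, Finset.mul_sum]

open Classical in
private theorem TI3_inner (χ : DirichletCharacter ℂ d) (a b : ℕ) :
    ∑ k ∈ (Ioc a b).filter (fun k : ℕ => k.Coprime d), ((rw1 k : ℝ) : ℂ) * ev χ (ucl d k)⁻¹ =
      (starRingEnd ℂ) (∑ k ∈ Ioc a b, χ (k : ZMod d) / (k : ℂ)) := by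
  rw [map_sum, Finset.sum_filter]
  refine Finset.sum_congr rfl fun k _ => ?_
  split_ifs with hk
  · rw [← conj_ev]
    unfold ev rw1
    rw [ucl_val hk, map_div₀, Complex.conj_natCast]
    push_cast
    ring
  · have h0 : χ (k : ZMod d) = 0 := by
      apply MulChar.map_nonunit
      rw [ZMod.isUnit_iff_coprime]
      exact hk
    rw [h0, zero_div, map_zero]

open Classical in
theorem typeI (S : Finset (DirichletCharacter ℂ d)) (hS : S.Nonempty) (δ : ℝ) (hδ : 0 ≤ δ) (m A B : ℕ) (hm : 0 < m) (hmd : m.Coprime d)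
    (hA : 1 ≤ A / m) (hAB : A ≤ B)
    (h : ∀ χ : DirichletCharacter ℂ d, χ ≠ 1 → ∀ N : ℕ, A / m ≤ N → ‖∑ n ∈ Icc 1 N, χ (n : ZMod d)‖ ≤ (N : ℝ) * δ) (g : (ZMod d)ˣ) :
    |∑ n ∈ (Ioc A B).filter (fun n : ℕ => n.Coprime d ∧ m ∣ n), rw1 n * bt S ((ucl d n)⁻¹ * g) -
        rw1 m / (Fintype.card (ZMod d)ˣ : ℝ) * hc d (A / m) (B / m)| ≤
      rw1 m / (Fintype.card (ZMod d)ˣ : ℝ) * ((S.card : ℝ) ^ 2 * (δ * (2 + Real.log (((B / m : ℕ) : ℝ) / ((A / m : ℕ) : ℝ))))) := by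
  have hN : (0 : ℝ) < (Fintype.card (ZMod d)ˣ : ℝ) := by
    exact_mod_cast Fintype.card_pos
  have hrm : 0 ≤ rw1 m := by
    unfold rw1
    positivity
  set y : (ZMod d)ˣ := (ucl d m)⁻¹ * g with hy
  set R : Finset ℕ := (Ioc (A / m) (B / m)).filter (fun k : ℕ => k.Coprime d) with hR
  set T : ℝ := ∑ k ∈ R, rw1 k * bt S ((ucl d k)⁻¹ * y) with hT
  set E : ℝ := δ * (2 + Real.log (((B / m : ℕ) : ℝ) / ((A / m : ℕ) : ℝ))) with hE
  have hEn : ∀ χ : DirichletCharacter ℂ d, χ ≠ 1 → ‖∑ k ∈ R, ((rw1 k : ℝ) : ℂ) * ev χ (ucl d k)⁻¹‖ ≤ E := fun χ hχ => by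
    rw [hR, TI3_inner, RCLike.norm_conj]
    exact log_sum_bound (fun n => χ (n : ZMod d)) δ hδ (A / m) (B / m) hA (Nat.div_le_div_right hAB) (h χ hχ)
  have hE0 : 0 ≤ E := by
    rw [hE]
    refine mul_nonneg hδ ?_
    have h1 : (1 : ℝ) ≤ ((B / m : ℕ) : ℝ) / ((A / m : ℕ) : ℝ) := by
      rw [one_le_div (by exact_mod_cast hA)]
      exact_mod_cast Nat.div_le_div_right hAB
    have := Real.log_nonneg h1
    linarith
  have hmain : |(Fintype.card (ZMod d)ˣ : ℝ) * T - hc d (A / m) (B / m)| ≤ (S.card : ℝ) ^ 2 * E := by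
    have h1 : (((Fintype.card (ZMod d)ˣ : ℝ) * T - hc d (A / m) (B / m) : ℝ) : ℂ) =
        ∑ χ ∈ (univ : Finset (DirichletCharacter ℂ d)).erase 1,
          ((bh S χ : ℝ) : ℂ) * (ev χ y * ∑ k ∈ R, ((rw1 k : ℝ) : ℂ) * ev χ (ucl d k)⁻¹) := by
      have h2 := TI3_swap S hS R y
      rw [← Finset.add_sum_erase _ _ (Finset.mem_univ (1 : DirichletCharacter ℂ d))] at h2
      have h3 : ((bh S (1 : DirichletCharacter ℂ d) : ℝ) : ℂ) *
          (ev (1 : DirichletCharacter ℂ d) y * ∑ k ∈ R, ((rw1 k : ℝ) : ℂ) * ev (1 : DirichletCharacter ℂ d) (ucl d k)⁻¹) =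
          ((hc d (A / m) (B / m) : ℝ) : ℂ) := by
        have hev : ∀ c : (ZMod d)ˣ, ev (1 : DirichletCharacter ℂ d) c = 1 := fun c => by
          unfold ev
          exact MulChar.one_apply_coe c
        rw [bh_one S hS, hev]
        simp only [hev]
        unfold hc
        push_cast
        rw [one_mul, one_mul]
        simp only [mul_one]
        rfl
      rw [h3] at h2
      push_cast
      rw [hT]
      push_cast at h2 ⊢
      rw [h2]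
      ring
    have h4 : |(Fintype.card (ZMod d)ˣ : ℝ) * T - hc d (A / m) (B / m)| =
        ‖(((Fintype.card (ZMod d)ˣ : ℝ) * T - hc d (A / m) (B / m) : ℝ) : ℂ)‖ := by
      rw [Complex.norm_real, Real.norm_eq_abs]
    rw [h4, h1]
    have h5 : ∀ χ ∈ (univ : Finset (DirichletCharacter ℂ d)).erase 1,
        ‖((bh S χ : ℝ) : ℂ) * (ev χ y * ∑ k ∈ R, ((rw1 k : ℝ) : ℂ) * ev χ (ucl d k)⁻¹)‖ ≤
          if bh S χ ≠ 0 then E else 0 := fun χ hχ => by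
      rw [Finset.mem_erase] at hχ
      rw [norm_mul, norm_mul, norm_ev, one_mul, Complex.norm_real, Real.norm_eq_abs, abs_of_nonneg (bh_nonneg S χ)]
      split_ifs with hb
      · calc bh S χ * ‖∑ k ∈ R, ((rw1 k : ℝ) : ℂ) * ev χ (ucl d k)⁻¹‖ ≤ 1 * E :=
              mul_le_mul (bh_le_one S χ) (hEn χ hχ.1) (norm_nonneg _) zero_le_one
          _ = E := one_mul E
      · push Not at hb
        rw [hb, zero_mul]
    calc ‖∑ χ ∈ (univ : Finset (DirichletCharacter ℂ d)).erase 1,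
          ((bh S χ : ℝ) : ℂ) * (ev χ y * ∑ k ∈ R, ((rw1 k : ℝ) : ℂ) * ev χ (ucl d k)⁻¹)‖
        ≤ ∑ χ ∈ (univ : Finset (DirichletCharacter ℂ d)).erase 1, (if bh S χ ≠ 0 then E else 0) := norm_sum_le_of_le _ h5
      _ ≤ ∑ χ : DirichletCharacter ℂ d, (if bh S χ ≠ 0 then E else 0) := by
          refine Finset.sum_le_sum_of_subset_of_nonneg (Finset.erase_subset _ _) fun χ _ _ => ?_
          split_ifs
          · exact hE0
          · exact le_rfl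
      _ = (((univ : Finset (DirichletCharacter ℂ d)).filter (fun χ => bh S χ ≠ 0)).card : ℝ) * E := by
          rw [← Finset.sum_filter, Finset.sum_const, nsmul_eq_mul]
      _ ≤ (S.card : ℝ) ^ 2 * E := by
          refine mul_le_mul_of_nonneg_right ?_ hE0
          exact_mod_cast bh_supp S
  rw [TI3_reindex S m A B hm hmd g]
  have h6 : rw1 m * T - rw1 m / (Fintype.card (ZMod d)ˣ : ℝ) * hc d (A / m) (B / m) =
      rw1 m / (Fintype.card (ZMod d)ˣ : ℝ) * ((Fintype.card (ZMod d)ˣ : ℝ) * T - hc d (A / m) (B / m)) := by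
    field_simp
  rw [h6, abs_mul, abs_of_nonneg (div_nonneg hrm hN.le)]
  exact mul_le_mul_of_nonneg_left hmain (div_nonneg hrm hN.le)

end Pool.Agent.Lib.MP_42948a_nt.EK
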