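import Pool.Agent.Lib.MP_42948a_nt.EK.TI2b
import Pool.Agent.Lib.MP_42948a_nt.EK.TI3
import Pool.Agent.Lib.MP_42948a_nt.EK.C2a

/-!
# Sieve weights against the Fejer kernel (job TI4)

Fixed `d`, `A ≤ B`, `g`, `S`; `φ = Fintype.card (ZMod d)ˣ = d.totient` (`ZMod.card_units_eq_totient`). `ω` is supported on `m ∈ Icc 1 D` coprime to `d`, and for all of these `1 ≤ A/m` and the bound for character sums holds.
`err` is an upper bound for `|hc d (A/m) (B/m) - (φ/d) log(B/A)| + #S^2 δ (2 + log ((B/m)/(A/m)))` for all `m` with `ω m ≠ 0`.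
`W := ∑_{n ∈ Ioc A B coprime to d} rw1 n * bt S ((ucl n)⁻¹ g) * ∑_{m ∈ n.divisors} ω m`.
(1) Lower bound: exchange the sums: `W = ∑_{m ∈ Icc 1 D} ω m * ∑_{n ∈ Ioc A B, coprime, m ∣ n} rw1 n * bt S (..)`, and by `typeI` the inner sum is `(rw1 m/φ) ((φ/d) log (B/A) + θ_m)`, `|θ_m| ≤ err`. So
`W ≥ (1/φ) ((φ/d) log(B/A) ∑ ω m/m - err ∑ |ω m|/m)`.
(2) Upper bound: by the hypothesis `hup` on `∑_{m ∣ n} ω m` (`n ∈ Ioc A B`; `P` is the predicate `Rough .. ∧ Ω ≤ 2`, `E` the set of multiples of squares; `bt ≥ 0`):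
`W ≤ ∑_{n, P n} rw1 n bt S (..) + ∑_{n ∈ Ioc A B, E n} rw1 n bt S (..)`; the first sum is `sm S (CF d R rw1) g` for `R = {n ∈ Ioc A B : coprime, P n}` (`sm_CF`, `C2a.lean`), the second one is `≤ (#S/φ) ∑_{n, E n} rw1 n` (`bt_le`).
-/

namespace Pool.Agent.Lib.MP_42948a_nt.EK

open Finset Pool.Agent.Lib.MP_42948a_nt.OA Pool.Agent.Lib.MP_42948a_nt.AC Pool.Agent.Lib.MP_42948a_nt.TQ
  Pool.Agent.Lib.MP_42948a_nt.PS

variable {d : ℕ} [NeZero d]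

private theorem TI4_div (D : ℕ) (ω : ℕ → ℝ) (hω : ∀ m, ω m ≠ 0 → 1 ≤ m ∧ m ≤ D) (n : ℕ) (hn : n ≠ 0) :
    ∑ m ∈ n.divisors, ω m = ∑ m ∈ Icc 1 D, if m ∣ n then ω m else 0 := by
  rw [← sum_filter]
  symm
  refine sum_subset (fun m hm => ?_) (fun m hm hm' => ?_)
  · exact Nat.mem_divisors.2 ⟨(mem_filter.1 hm).2, hn⟩
  · by_contra h
    obtain ⟨h1, h2⟩ := hω m h
    exact hm' (mem_filter.2 ⟨mem_Icc.2 ⟨h1, h2⟩, (Nat.mem_divisors.1 hm).1⟩)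

open Classical in
theorem weighted (S : Finset (DirichletCharacter ℂ d)) (hS : S.Nonempty) (δ err : ℝ) (hδ : 0 ≤ δ) (A B D : ℕ) (hAB : A ≤ B) (hA : 1 ≤ A)
    (ω : ℕ → ℝ) (hω : ∀ m, ω m ≠ 0 → 1 ≤ m ∧ m ≤ D ∧ m.Coprime d)
    (hm : ∀ m, ω m ≠ 0 → 1 ≤ A / m ∧
      (∀ χ : DirichletCharacter ℂ d, χ ≠ 1 → ∀ N : ℕ, A / m ≤ N → ‖∑ n ∈ Icc 1 N, χ (n : ZMod d)‖ ≤ (N : ℝ) * δ) ∧
      |hc d (A / m) (B / m) - (d.totient : ℝ) / d * Real.log ((B : ℝ) / A)| +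
        (S.card : ℝ) ^ 2 * (δ * (2 + Real.log (((B / m : ℕ) : ℝ) / ((A / m : ℕ) : ℝ)))) ≤ err)
    (P E : ℕ → Prop) (hup : ∀ n ∈ Ioc A B, n.Coprime d → ∑ m ∈ n.divisors, ω m ≤ (if P n then (1 : ℝ) else 0) + (if E n then (1 : ℝ) else 0))
    (g : (ZMod d)ˣ) :
    1 / (d.totient : ℝ) * ((d.totient : ℝ) / d * Real.log ((B : ℝ) / A) * ∑ m ∈ Icc 1 D, ω m / m - err * ∑ m ∈ Icc 1 D, |ω m| / m) ≤
      sm S (CF d ((Ioc A B).filter (fun n : ℕ => n.Coprime d ∧ P n)) rw1) g +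
        (S.card : ℝ) / (d.totient : ℝ) * ∑ n ∈ (Ioc A B).filter (fun n : ℕ => E n), rw1 n := by
  have hφ : (Fintype.card (ZMod d)ˣ : ℝ) = (d.totient : ℝ) := by
    rw [ZMod.card_units_eq_totient]
  have hφ0 : (0 : ℝ) < (d.totient : ℝ) := by
    exact_mod_cast Nat.totient_pos.2 (Nat.pos_of_ne_zero (NeZero.ne d))
  obtain ⟨φ, hφφ⟩ : ∃ φ : ℝ, φ = (d.totient : ℝ) := ⟨_, rfl⟩
  obtain ⟨L, hL⟩ : ∃ L : ℝ, L = (d.totient : ℝ) / d * Real.log ((B : ℝ) / A) := ⟨_, rfl⟩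
  obtain ⟨b, hb⟩ : ∃ b : ℕ → ℝ, b = fun n => rw1 n * bt S ((ucl d n)⁻¹ * g) := ⟨_, rfl⟩
  have hrw : ∀ n : ℕ, 0 ≤ rw1 n := fun n => by
    unfold rw1
    positivity
  have hb0 : ∀ n, 0 ≤ b n := fun n => by
    rw [hb]
    exact mul_nonneg (hrw n) (bt_nonneg _ _)
  have hb1 : ∀ n, b n ≤ (S.card : ℝ) / φ * rw1 n := fun n => by
    rw [hb, hφφ, ← hφ]
    change rw1 n * bt S ((ucl d n)⁻¹ * g) ≤ _
    rw [mul_comm (rw1 n)]
    exact mul_le_mul_of_nonneg_right (bt_le S hS _) (hrw n)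
  rw [← hL, ← hφφ]
  rw [← hφφ] at hφ0 hφ
  obtain ⟨W, hW⟩ : ∃ W : ℝ, W = ∑ n ∈ (Ioc A B).filter (fun n : ℕ => n.Coprime d),
      b n * ∑ m ∈ n.divisors, ω m := ⟨_, rfl⟩
  -- lower bound
  have h1 : W = ∑ m ∈ Icc 1 D, ω m *
      ∑ n ∈ (Ioc A B).filter (fun n : ℕ => n.Coprime d ∧ m ∣ n), b n := by
    have e1 : W = ∑ n ∈ (Ioc A B).filter (fun n : ℕ => n.Coprime d),
        ∑ m ∈ Icc 1 D, (if m ∣ n then ω m * b n else 0) := by
      rw [hW]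
      refine sum_congr rfl fun n hn => ?_
      have hn1 : n ≠ 0 := by
        have := (mem_Ioc.1 (mem_filter.1 hn).1).1
        omega
      rw [TI4_div D ω (fun m h => ⟨(hω m h).1, (hω m h).2.1⟩) n hn1, mul_sum]
      refine sum_congr rfl fun m _ => ?_
      split_ifs
      · exact mul_comm _ _
      · exact mul_zero _
    rw [e1, sum_comm]
    refine sum_congr rfl fun m _ => ?_
    rw [← sum_filter, filter_filter, mul_sum]
  have h2 : ∀ m ∈ Icc 1 D, 1 / φ * (L * (ω m / m) - err * (|ω m| / m)) ≤ ω m *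
      ∑ n ∈ (Ioc A B).filter (fun n : ℕ => n.Coprime d ∧ m ∣ n), b n := by
    intro m _
    by_cases h0 : ω m = 0
    · rw [h0, abs_zero, zero_div, mul_zero, mul_zero, sub_zero, mul_zero, zero_mul]
    · obtain ⟨hm1, -, hmd⟩ := hω m h0
      obtain ⟨hA1, hch, herr⟩ := hm m h0
      have h3 := typeI S hS δ hδ m A B hm1 hmd hA1 hAB hch g
      rw [hφ] at h3
      rw [← hL] at herr
      have hm0 : (0 : ℝ) < m := by exact_mod_cast hm1
      have hr0 : 0 ≤ rw1 m / φ := div_nonneg (hrw m) hφ0.le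
      have hbT : ∑ n ∈ (Ioc A B).filter (fun n : ℕ => n.Coprime d ∧ m ∣ n), b n =
          ∑ n ∈ (Ioc A B).filter (fun n : ℕ => n.Coprime d ∧ m ∣ n),
            rw1 n * bt S ((ucl d n)⁻¹ * g) := by
        rw [hb]
      obtain ⟨T, hT⟩ : ∃ T : ℝ, T = ∑ n ∈ (Ioc A B).filter (fun n : ℕ => n.Coprime d ∧ m ∣ n),
        b n := ⟨_, rfl⟩
      rw [← hbT, ← hT] at h3
      rw [← hT]
      obtain ⟨X, hX⟩ : ∃ X : ℝ, X = (S.card : ℝ) ^ 2 *
        (δ * (2 + Real.log (((B / m : ℕ) : ℝ) / ((A / m : ℕ) : ℝ)))) := ⟨_, rfl⟩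
      obtain ⟨hh, hhh⟩ : ∃ hh : ℝ, hh = hc d (A / m) (B / m) := ⟨_, rfl⟩
      rw [← hX, ← hhh] at h3 herr
      have h4 : |T - rw1 m / φ * L| ≤ rw1 m / φ * err := by
        have e1 : T - rw1 m / φ * L = (T - rw1 m / φ * hh) + rw1 m / φ * (hh - L) := by ring
        rw [e1]
        refine (abs_add_le _ _).trans ?_
        rw [abs_mul, abs_of_nonneg hr0]
        have e2 : rw1 m / φ * (|hh - L| + X) ≤ rw1 m / φ * err :=
          mul_le_mul_of_nonneg_left herr hr0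
        rw [mul_add] at e2
        linarith
      have h5 : |ω m * (T - rw1 m / φ * L)| ≤ |ω m| * (rw1 m / φ * err) := by
        rw [abs_mul]
        exact mul_le_mul_of_nonneg_left h4 (abs_nonneg _)
      have h6 := (abs_le.1 h5).1
      have h7 : 1 / φ * (L * (ω m / m) - err * (|ω m| / m)) =
          ω m * (rw1 m / φ * L) - |ω m| * (rw1 m / φ * err) := by
        unfold rw1
        field_simp
      rw [h7]
      linarith
  have h3 : 1 / φ * (L * ∑ m ∈ Icc 1 D, ω m / m - err * ∑ m ∈ Icc 1 D, |ω m| / m) ≤ W := by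
    rw [h1]
    refine le_trans (le_of_eq ?_) (sum_le_sum h2)
    rw [← mul_sum, sum_sub_distrib, ← mul_sum, ← mul_sum]
  refine h3.trans ?_
  -- upper bound
  have h4 : W ≤ ∑ n ∈ (Ioc A B).filter (fun n : ℕ => n.Coprime d),
      ((if P n then b n else 0) + (if E n then b n else 0)) := by
    rw [hW]
    refine sum_le_sum fun n hn => ?_
    obtain ⟨hn1, hn2⟩ := mem_filter.1 hn
    refine (mul_le_mul_of_nonneg_left (hup n hn1 hn2) (hb0 n)).trans (le_of_eq ?_)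
    split_ifs <;> ring
  refine h4.trans ?_
  rw [sum_add_distrib, ← sum_filter, ← sum_filter, filter_filter, filter_filter, sm_CF]
  refine add_le_add (le_of_eq ?_) ?_
  · rw [hb]
  · rw [mul_sum]
    refine (sum_le_sum fun n _ => hb1 n).trans (sum_le_sum_of_subset_of_nonneg ?_ ?_)
    · intro n hn
      obtain ⟨hn1, -, hn2⟩ := mem_filter.1 hn
      exact mem_filter.2 ⟨hn1, hn2⟩
    · intro n _ _
      exact (hb0 n).trans (hb1 n)

end Pool.Agent.Lib.MP_42948a_nt.EK
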